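import Mathlib
import Pool.Agent.RieszF.S9Struct
import Pool.Agent.RieszFive.PartII
import Pool.Agent.RieszFive.PartIII
import Pool.Agent.RieszSmall.Exist

set_option autoImplicit false

open Real Finset

namespace Pool.Agent.Results.MP_743703_an.FivePoints

/-- The Riesz `s`-energy of five points: the sum of `‖x i - x j‖ ^ (-s)` over all ordered pairs of
different indices. -/
noncomputable def rieszEnergy (s : ℝ) (x : Fin 5 → EuclideanSpace ℝ (Fin 3)) : ℝ :=
  ∑ i, ∑ j, if i = j then 0 else ‖x i - x j‖ ^ (-s)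

/-- `x` lists five distinct points of the unit sphere `S^2` of `ℝ^3`. -/
def IsConfig (x : Fin 5 → EuclideanSpace ℝ (Fin 3)) : Prop :=
  Function.Injective x ∧ ∀ i, ‖x i‖ = 1

/-- `x` minimizes the Riesz `s`-energy among all five-point configurations on `S^2`. -/
def IsMinimizer (s : ℝ) (x : Fin 5 → EuclideanSpace ℝ (Fin 3)) : Prop :=
  IsConfig x ∧ ∀ x', IsConfig x' → rieszEnergy s x ≤ rieszEnergy s x'

/-- `x` lists the vertices of a square pyramid inscribed in the unit sphere: the apex is `w` and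
the base is the square in the plane at height `-z` (orthogonal to `w`) with the diagonals parallel
to `u` and `v`, for an orthonormal basis `u, v, w`. -/
def IsSquarePyramid (z : ℝ) (x : Fin 5 → EuclideanSpace ℝ (Fin 3)) : Prop :=
  ∃ (u v w : EuclideanSpace ℝ (Fin 3)) (σ : Equiv.Perm (Fin 5)),
    ‖u‖ = 1 ∧ ‖v‖ = 1 ∧ ‖w‖ = 1 ∧
    inner ℝ u v = (0 : ℝ) ∧ inner ℝ u w = (0 : ℝ) ∧ inner ℝ v w = (0 : ℝ) ∧
    x (σ 0) = √(1 - z ^ 2) • u - z • w ∧ x (σ 1) = -(√(1 - z ^ 2) • u) - z • w ∧
    x (σ 2) = √(1 - z ^ 2) • v - z • w ∧ x (σ 3) = -(√(1 - z ^ 2) • v) - z • w ∧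
    x (σ 4) = w

open Pool.Agent.RieszSmall (En)
open Pool.Agent.RieszF (Conf IsMin Pyr)

lemma conf_iff (x : Fin 5 → EuclideanSpace ℝ (Fin 3)) : IsConfig x ↔ Conf x :=
  ⟨fun h => ⟨h.1, h.2⟩, fun h => ⟨h.inj, h.unit⟩⟩

lemma energy_eq {s : ℝ} {x : Fin 5 → EuclideanSpace ℝ (Fin 3)} (hx : Conf x) :
    rieszEnergy s x = 2 ^ (-(s / 2)) * En (s / 2) x := by
  unfold rieszEnergy En
  rw [Finset.mul_sum]
  refine Finset.sum_congr rfl (fun i _ => ?_)
  rw [Finset.mul_sum]
  refine Finset.sum_congr rfl (fun j _ => ?_)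
  split_ifs with hij
  · simp
  · have h1 : ‖x i - x j‖ ^ 2 = 2 * (1 - inner ℝ (x i) (x j)) := by
      rw [norm_sub_sq_real, hx.unit, hx.unit]; ring
    have h2 : 0 < ‖x i - x j‖ := norm_pos_iff.2 (sub_ne_zero.2 fun h => hij (hx.inj h))
    rw [← Real.mul_rpow (by norm_num) (hx.dd_pos hij).le, ← h1, ← Real.rpow_natCast,
      ← Real.rpow_mul h2.le]
    congr 1
    push_cast
    ring

lemma min_iff {s : ℝ} {x : Fin 5 → EuclideanSpace ℝ (Fin 3)} :
    IsMinimizer s x ↔ IsMin (s / 2) x := by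
  have h2 : (0 : ℝ) < 2 ^ (-(s / 2)) := Real.rpow_pos_of_pos (by norm_num) _
  constructor
  · rintro ⟨h, h'⟩
    have hc := (conf_iff x).1 h
    refine ⟨hc, fun y hy => ?_⟩
    have h3 := h' y ((conf_iff y).2 hy)
    rw [energy_eq hc, energy_eq hy] at h3
    exact le_of_mul_le_mul_left h3 h2
  · rintro ⟨h, h'⟩
    refine ⟨(conf_iff x).2 h, fun y hy => ?_⟩
    have hyc := (conf_iff y).1 hy
    rw [energy_eq h, energy_eq hyc]
    exact mul_le_mul_of_nonneg_left (h' y hyc) h2.le

/-- The square pyramid in terms of inner products. -/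
lemma pyr_iff {z : ℝ} (h0 : 0 < z) (h1 : z < 1) {x : Fin 5 → EuclideanSpace ℝ (Fin 3)} :
    IsSquarePyramid z x ↔ ∃ σ : Equiv.Perm (Fin 5), Pyr z (fun i => x (σ i)) := by
  have hz2 : 0 < 1 - z ^ 2 := by nlinarith
  have hr : 0 < √(1 - z ^ 2) := Real.sqrt_pos.2 hz2
  have hr2 : √(1 - z ^ 2) * √(1 - z ^ 2) = 1 - z ^ 2 := Real.mul_self_sqrt hz2.le
  constructor
  · rintro ⟨u, v, w, σ, hu, hv, hw, huv, huw, hvw, e0, e1, e2, e3, e4⟩
    have huu : inner ℝ u u = (1 : ℝ) := by rw [real_inner_self_eq_norm_sq, hu]; norm_num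
    have hvv : inner ℝ v v = (1 : ℝ) := by rw [real_inner_self_eq_norm_sq, hv]; norm_num
    have hww : inner ℝ w w = (1 : ℝ) := by rw [real_inner_self_eq_norm_sq, hw]; norm_num
    have hvu : inner ℝ v u = (0 : ℝ) := by rw [real_inner_comm]; exact huv
    have hwu : inner ℝ w u = (0 : ℝ) := by rw [real_inner_comm]; exact huw
    have hwv : inner ℝ w v = (0 : ℝ) := by rw [real_inner_comm]; exact hvw
    set r := √(1 - z ^ 2) with hrdef
    have nrm : ∀ y : EuclideanSpace ℝ (Fin 3), inner ℝ y y = (1 : ℝ) → ‖y‖ = 1 := by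
      intro y hy
      rw [real_inner_self_eq_norm_sq] at hy
      nlinarith [norm_nonneg y]
    refine ⟨σ, ⟨?_, ?_, ?_, ?_, ?_, ?_, ?_, ?_, ?_, ?_, ?_⟩⟩
    · intro i
      apply nrm
      fin_cases i
      · change inner ℝ (x (σ 0)) (x (σ 0)) = (1 : ℝ)
        rw [e0]
        simp only [inner_sub_left, inner_sub_right, inner_smul_left, inner_smul_right, huu, hww,
          huw, hwu, RCLike.conj_to_real]
        linarith
      · change inner ℝ (x (σ 1)) (x (σ 1)) = (1 : ℝ)
        rw [e1]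
        simp only [inner_sub_left, inner_sub_right, inner_neg_left, inner_neg_right,
          inner_smul_left, inner_smul_right, huu, hww, huw, hwu, RCLike.conj_to_real]
        linarith
      · change inner ℝ (x (σ 2)) (x (σ 2)) = (1 : ℝ)
        rw [e2]
        simp only [inner_sub_left, inner_sub_right, inner_smul_left, inner_smul_right, hvv, hww,
          hvw, hwv, RCLike.conj_to_real]
        linarith
      · change inner ℝ (x (σ 3)) (x (σ 3)) = (1 : ℝ)
        rw [e3]
        simp only [inner_sub_left, inner_sub_right, inner_neg_left, inner_neg_right,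
          inner_smul_left, inner_smul_right, hvv, hww, hvw, hwv, RCLike.conj_to_real]
        linarith
      · change inner ℝ (x (σ 4)) (x (σ 4)) = (1 : ℝ)
        rw [e4, hww]
    all_goals simp only [e0, e1, e2, e3, e4]
    all_goals simp only [inner_sub_left, inner_sub_right, inner_neg_left, inner_neg_right,
          inner_smul_left, inner_smul_right, huu, hvv, hww, huv, hvw, hwv, huw, hwu,
          RCLike.conj_to_real]
    all_goals first | ring1 | linear_combination (-1 : ℝ) * hr2
  · rintro ⟨σ, h⟩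
    have hself : ∀ i, inner ℝ (x (σ i)) (x (σ i)) = (1 : ℝ) := by
      intro i
      rw [real_inner_self_eq_norm_sq, h.unit i]; norm_num
    have c01 := h.opp01
    have c23 := h.opp23
    have c02 := h.adj02
    have c03 := h.adj03
    have c12 := h.adj12
    have c13 := h.adj13
    have c04 := h.ap0
    have c14 := h.ap1
    have c24 := h.ap2
    have c34 := h.ap3
    have c10 : inner ℝ (x (σ 1)) (x (σ 0)) = 2 * z ^ 2 - 1 := by rw [real_inner_comm]; exact c01
    have c32 : inner ℝ (x (σ 3)) (x (σ 2)) = 2 * z ^ 2 - 1 := by rw [real_inner_comm]; exact c23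
    have c40 : inner ℝ (x (σ 4)) (x (σ 0)) = -z := by rw [real_inner_comm]; exact c04
    have c41 : inner ℝ (x (σ 4)) (x (σ 1)) = -z := by rw [real_inner_comm]; exact c14
    have c42 : inner ℝ (x (σ 4)) (x (σ 2)) = -z := by rw [real_inner_comm]; exact c24
    have c43 : inner ℝ (x (σ 4)) (x (σ 3)) = -z := by rw [real_inner_comm]; exact c34
    have s0 := hself 0
    have s1 := hself 1
    have s2 := hself 2
    have s3 := hself 3
    have s4 := hself 4
    set r := √(1 - z ^ 2) with hrdef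
    have nrm : ∀ y : EuclideanSpace ℝ (Fin 3), inner ℝ y y = (1 : ℝ) → ‖y‖ = 1 := by
      intro y hy
      rw [real_inner_self_eq_norm_sq] at hy
      nlinarith [norm_nonneg y]
    have hrr : r⁻¹ * (r⁻¹ * (1 - z ^ 2)) = 1 := by
      rw [← hr2]
      field_simp
    have op1 : x (σ 0) + x (σ 1) + (2 * z) • x (σ 4) = 0 := by
      rw [← inner_self_eq_zero (𝕜 := ℝ)]
      simp only [inner_add_left, inner_add_right, inner_smul_left, inner_smul_right,
        RCLike.conj_to_real]
      rw [s0, s1, s4, c01, c10, c04, c40, c14, c41]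
      ring
    have op2 : x (σ 2) + x (σ 3) + (2 * z) • x (σ 4) = 0 := by
      rw [← inner_self_eq_zero (𝕜 := ℝ)]
      simp only [inner_add_left, inner_add_right, inner_smul_left, inner_smul_right,
        RCLike.conj_to_real]
      rw [s2, s3, s4, c23, c32, c24, c42, c34, c43]
      ring
    refine ⟨r⁻¹ • (x (σ 0) + z • x (σ 4)), r⁻¹ • (x (σ 2) + z • x (σ 4)), x (σ 4), σ, ?_, ?_, ?_,
      ?_, ?_, ?_, ?_, ?_, ?_, ?_, rfl⟩
    · apply nrm
      simp only [inner_add_left, inner_add_right, inner_smul_left, inner_smul_right,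
        RCLike.conj_to_real]
      rw [s0, s4, c04, c40]
      linear_combination hrr
    · apply nrm
      simp only [inner_add_left, inner_add_right, inner_smul_left, inner_smul_right,
        RCLike.conj_to_real]
      rw [s2, s4, c24, c42]
      linear_combination hrr
    · exact h.unit 4
    · simp only [inner_add_left, inner_add_right, inner_smul_left, inner_smul_right,
        RCLike.conj_to_real]
      rw [c02, s4, c04, c42]
      ring
    · simp only [inner_add_left, inner_smul_left, RCLike.conj_to_real]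
      rw [c04, s4]
      ring
    · simp only [inner_add_left, inner_smul_left, RCLike.conj_to_real]
      rw [c24, s4]
      ring
    · rw [smul_smul, mul_inv_cancel₀ hr.ne', one_smul, add_sub_cancel_right]
    · rw [smul_smul, mul_inv_cancel₀ hr.ne', one_smul]
      have : x (σ 1) = -(x (σ 0) + (2 * z) • x (σ 4)) := by
        rw [eq_neg_iff_add_eq_zero, ← op1]; abel
      rw [this]
      module
    · rw [smul_smul, mul_inv_cancel₀ hr.ne', one_smul, add_sub_cancel_right]
    · rw [smul_smul, mul_inv_cancel₀ hr.ne', one_smul]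
      have : x (σ 3) = -(x (σ 2) + (2 * z) • x (σ 4)) := by
        rw [eq_neg_iff_add_eq_zero, ← op2]; abel
      rw [this]
      module

/-- The equation for the height has at most one root. -/
lemma root_unique {p c z z' : ℝ} (hp : 0 < p) (hc : 0 < c) (hz1 : z < 1)
    (hz1' : z' < 1) (h : (1 - z) ^ p = 2 * z * c) (h' : (1 - z') ^ p = 2 * z' * c) : z = z' := by
  rcases lt_trichotomy z z' with hlt | heq | hgt
  · exfalso
    have h2 : (1 - z') ^ p < (1 - z) ^ p :=
      Real.rpow_lt_rpow (by linarith) (by linarith) hp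
    nlinarith
  · exact heq
  · exfalso
    have h2 : (1 - z) ^ p < (1 - z') ^ p :=
      Real.rpow_lt_rpow (by linarith) (by linarith) hp
    nlinarith

/-- Minimizers are square pyramids. -/
lemma pyr_of_min {q : ℝ} (hq : 7705 / 1024 ≤ q) {x : Fin 5 → EuclideanSpace ℝ (Fin 3)}
    (h : IsMin q x) : ∃ (σ : Equiv.Perm (Fin 5)) (z : ℝ), 0 < z ∧ z < 1 ∧
      (1 - z) ^ (q + 1) = 2 * z * (1 + 2 ^ (-(q + 1))) ∧ Pyr z (fun i => x (σ i)) := by
  have hq0 : 0 < q := by linarith
  have hfr : Module.finrank ℝ (EuclideanSpace ℝ (Fin 3)) = 3 := by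
    rw [finrank_euclideanSpace_fin]
  rcases Pool.Agent.RieszF.five_structure hfr hq0 h with h1 | ⟨z1, z2, v, g, s, hA, hE⟩
  · exact h1
  exfalso
  have hA' : Pool.Agent.RieszFive.Adm z1 z2 v g s :=
    ⟨hA.h1, hA.h12, hA.h2, hA.hg, hA.hgs, hA.hv, hA.hs⟩
  have hF : Pool.Agent.RieszF.FF q z1 z2 v g s = Pool.Agent.RieszFive.FF q z1 z2 v g s := by
    unfold Pool.Agent.RieszF.FF Pool.Agent.RieszFive.FF Pool.Agent.RieszFive.T12
      Pool.Agent.RieszFive.T3
    ring
  have hph : ∀ z, Pool.Agent.RieszF.ph q z = Pool.Agent.RieszFive.ph q z := by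
    intro z
    unfold Pool.Agent.RieszF.ph Pool.Agent.RieszFive.ph Pool.Agent.RieszFive.ee
    rw [← pow_two]
    ring
  have key : ∃ z, 0 < z ∧ z < 1 ∧
      2 * Pool.Agent.RieszFive.ph q z < Pool.Agent.RieszFive.FF q z1 z2 v g s := by
    rcases Pool.Agent.RieszFive.partII hq hA' with h2 | h2 | h2
    · obtain ⟨z, a, b, c⟩ := Pool.Agent.RieszFive.partIII hq hA.h1 hA.h12 hA.h2
      exact ⟨z, a, b, by linarith⟩
    · obtain ⟨z, a, b, c⟩ := Pool.Agent.RieszFive.beat_eT hq
      exact ⟨z, a, b, by linarith⟩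
    · exact h2
  obtain ⟨z, hz0, hz1, hz⟩ := key
  obtain ⟨y, hy⟩ := Pool.Agent.RieszF.exists_pyr hz0 hz1
  have h3 := h.2 y (hy.conf hz0 hz1)
  rw [hy.energy, hE, hF, hph] at h3
  linarith

/-- **Five points on the sphere.** For every `s ≥ 15 + 25/512` the minimizers of the Riesz
`s`-energy among five-point configurations on `S^2` are exactly the square pyramids whose height
parameter `z` is the unique root in `(0,1)` of `(1-z)^(s/2+1) = 2z(1+2^(-(s/2+1)))`; minimizers
exist and are unique up to orthogonal transformations and relabelling. -/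
theorem result (s : ℝ) (hs : 15 + 25 / 512 ≤ s) :
    (∃! z : ℝ, 0 < z ∧ z < 1 ∧ (1 - z) ^ (s / 2 + 1) = 2 * z * (1 + 2 ^ (-(s / 2 + 1)))) ∧
    (∀ z : ℝ, 0 < z → z < 1 → (1 - z) ^ (s / 2 + 1) = 2 * z * (1 + 2 ^ (-(s / 2 + 1))) →
      ∀ x : Fin 5 → EuclideanSpace ℝ (Fin 3), IsMinimizer s x ↔ IsSquarePyramid z x) ∧
    (∃ x : Fin 5 → EuclideanSpace ℝ (Fin 3), IsMinimizer s x) ∧
    (∀ x x' : Fin 5 → EuclideanSpace ℝ (Fin 3), IsMinimizer s x → IsMinimizer s x' →
      ∃ (A : EuclideanSpace ℝ (Fin 3) ≃ₗᵢ[ℝ] EuclideanSpace ℝ (Fin 3))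
        (σ : Equiv.Perm (Fin 5)), ∀ i, x' (σ i) = A (x i)) := by
  set q : ℝ := s / 2 with hqdef
  have hq : 7705 / 1024 ≤ q := by rw [hqdef]; linarith
  have hq0 : 0 < q := by linarith
  have hc : (0 : ℝ) < 1 + 2 ^ (-(q + 1)) := by
    have := Real.rpow_pos_of_pos (show (0 : ℝ) < 2 by norm_num) (-(q + 1))
    linarith
  -- existence of a minimizer
  obtain ⟨y0, hy0⟩ := Pool.Agent.RieszF.exists_pyr (z := 1 / 2) (by norm_num) (by norm_num)
  obtain ⟨xm, hxm⟩ := Pool.Agent.RieszF.exists_isMin hq0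
    (hy0.conf (by norm_num) (by norm_num))
  obtain ⟨σm, zm, hz0, hz1, hzm, hPm⟩ := pyr_of_min hq hxm
  have hcm := hxm.relabel σm
  have hEm : En q xm = 2 * Pool.Agent.RieszF.ph q zm := by
    rw [← Pool.Agent.RieszF.En_relabel q xm σm]; exact hPm.energy
  have huniq : ∀ z, z < 1 → (1 - z) ^ (q + 1) = 2 * z * (1 + 2 ^ (-(q + 1))) → z = zm :=
    fun z h1 h2 => root_unique (by linarith) hc h1 hz1 h2 hzm
  refine ⟨⟨zm, ⟨hz0, hz1, hzm⟩, fun z hz => huniq z hz.2.1 hz.2.2⟩, ?_, ⟨xm, min_iff.2 hxm⟩, ?_⟩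
  · intro z h0 h1 hz x
    have hzz := huniq z h1 hz
    subst hzz
    rw [pyr_iff h0 h1, min_iff]
    constructor
    · intro hx
      obtain ⟨σ, z', hz0', hz1', hzm', hP'⟩ := pyr_of_min hq hx
      have := huniq z' hz1' hzm'
      subst this
      exact ⟨σ, hP'⟩
    · rintro ⟨σ, hP⟩
      have hE : En q x = 2 * Pool.Agent.RieszF.ph q z := by
        rw [← Pool.Agent.RieszF.En_relabel q x σ]; exact hP.energy
      have hconf : Conf x := by
        have h2 := (hP.conf h0 h1).relabel σ.symm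
        simpa using h2
      refine ⟨hconf, fun y hy => ?_⟩
      rw [hE, ← hEm]
      exact hxm.2 y hy
  · intro x x' hx hx'
    rw [min_iff] at hx hx'
    obtain ⟨σ, z, hz0, hz1, hz, hP⟩ := pyr_of_min hq hx
    obtain ⟨σ', z', hz0', hz1', hz', hP'⟩ := pyr_of_min hq hx'
    have e1 := huniq z hz1 hz
    have e2 := huniq z' hz1' hz'
    subst e1
    subst e2
    have hgram : ∀ i j, inner ℝ (x (σ i)) (x (σ j)) = (inner ℝ (x' (σ' i)) (x' (σ' j)) : ℝ) := by
      have hself : ∀ i, inner ℝ (x (σ i)) (x (σ i)) = (inner ℝ (x' (σ' i)) (x' (σ' i)) : ℝ) := by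
        intro i
        rw [real_inner_self_eq_norm_sq, real_inner_self_eq_norm_sq, hP.unit, hP'.unit]
      have flip : ∀ i j, inner ℝ (x (σ i)) (x (σ j)) = (inner ℝ (x' (σ' i)) (x' (σ' j)) : ℝ) →
          inner ℝ (x (σ j)) (x (σ i)) = (inner ℝ (x' (σ' j)) (x' (σ' i)) : ℝ) := by
        intro i j hij
        rw [real_inner_comm, hij, real_inner_comm]
      have g01 := hP.opp01.trans hP'.opp01.symm
      have g23 := hP.opp23.trans hP'.opp23.symm
      have g02 := hP.adj02.trans hP'.adj02.symm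
      have g03 := hP.adj03.trans hP'.adj03.symm
      have g12 := hP.adj12.trans hP'.adj12.symm
      have g13 := hP.adj13.trans hP'.adj13.symm
      have g04 := hP.ap0.trans hP'.ap0.symm
      have g14 := hP.ap1.trans hP'.ap1.symm
      have g24 := hP.ap2.trans hP'.ap2.symm
      have g34 := hP.ap3.trans hP'.ap3.symm
      intro i j
      fin_cases i <;> fin_cases j
      · exact hself _
      · exact g01
      · exact g02
      · exact g03
      · exact g04
      · exact flip _ _ g01
      · exact hself _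
      · exact g12
      · exact g13
      · exact g14
      · exact flip _ _ g02
      · exact flip _ _ g12
      · exact hself _
      · exact g23
      · exact g24
      · exact flip _ _ g03
      · exact flip _ _ g13
      · exact flip _ _ g23
      · exact hself _
      · exact g34
      · exact flip _ _ g04
      · exact flip _ _ g14
      · exact flip _ _ g24
      · exact flip _ _ g34
      · exact hself _
    obtain ⟨A, hA⟩ := Pool.Agent.RieszSmall.exists_isometry (f := fun i => x (σ i))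
      (g := fun i => x' (σ' i)) hgram
    refine ⟨A, σ.symm.trans σ', fun i => ?_⟩
    have := hA (σ.symm i)
    simp only [Equiv.apply_symm_apply] at this
    simpa using this.symm

end Pool.Agent.Results.MP_743703_an.FivePoints
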