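import Mathlib
import Pool.Agent.RieszSq.Key

set_option autoImplicit false

open Real Finset

namespace Pool.Agent.Results.MP_743703_an.LargeExponent

/-- The Riesz `s`-energy of a finite family of points: the sum of `‖x i - x j‖ ^ (-s)` over all
ordered pairs of different indices. -/
noncomputable def rieszEnergy {n : ℕ} {V : Type} [NormedAddCommGroup V] (s : ℝ) (x : Fin n → V) :
    ℝ :=
  ∑ i, ∑ j, if i = j then 0 else ‖x i - x j‖ ^ (-s)

/-- `x` lists `d + 3` distinct points of the unit sphere `S^d` of `ℝ^(d+1)`. -/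
def IsConfig (d : ℕ) (x : Fin (d + 3) → EuclideanSpace ℝ (Fin (d + 1))) : Prop :=
  Function.Injective x ∧ ∀ i, ‖x i‖ = 1

/-- `x` minimizes the Riesz `s`-energy among all `(d+3)`-point configurations on `S^d`. -/
def IsMinimizer (d : ℕ) (s : ℝ) (x : Fin (d + 3) → EuclideanSpace ℝ (Fin (d + 1))) : Prop :=
  IsConfig d x ∧ ∀ x', IsConfig d x' → rieszEnergy s x ≤ rieszEnergy s x'

/-- `ω = (d-1) α² / (1 - (d-2) γ)`. -/
noncomputable def omega (d : ℕ) (α γ : ℝ) : ℝ := ((d : ℝ) - 1) * α ^ 2 / (1 - ((d : ℝ) - 2) * γ)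

/-- The admissible parameters `(α, γ)`. -/
def Params (d : ℕ) : Set (ℝ × ℝ) :=
  {p | 0 < p.1 ∧ 0 ≤ p.2 ∧ ((d : ℝ) - 2) * p.2 < 1 ∧ omega d p.1 p.2 < 1}

/-- The energy of the configuration with parameters `(α, γ)`, in closed form. -/
noncomputable def redEnergy (d : ℕ) (s α γ : ℝ) : ℝ :=
  8 * ((d : ℝ) - 1) * (2 + 2 * α) ^ (-s / 2)
    + ((d : ℝ) - 1) * ((d : ℝ) - 2) * (2 + 2 * γ) ^ (-s / 2)
    + 8 * (2 - 2 * omega d α γ) ^ (-s / 2)
    + 4 * (4 - 4 * omega d α γ) ^ (-s / 2)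

/-- After a labelling of the points as `a 0, a 1, a 2, a 3` (cyclically ordered) and
`b 1, ..., b (d-1)`: `⟨a i, b k⟩ = -α`, `⟨b k, b l⟩ = -γ` for `k ≠ l`, `⟨a i, a (i+1)⟩ = ω` and
`⟨a i, a (i+2)⟩ = 2 ω - 1`. -/
def HasShape (d : ℕ) (α γ : ℝ) (x : Fin (d + 3) → EuclideanSpace ℝ (Fin (d + 1))) : Prop :=
  ∃ e : Fin 4 ⊕ Fin (d - 1) ≃ Fin (d + 3),
    (∀ (i : Fin 4) (k : Fin (d - 1)),
      inner ℝ (x (e (Sum.inl i))) (x (e (Sum.inr k))) = -α) ∧
    (∀ k l : Fin (d - 1), k ≠ l → inner ℝ (x (e (Sum.inr k))) (x (e (Sum.inr l))) = -γ) ∧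
    (∀ i : Fin 4, inner ℝ (x (e (Sum.inl i))) (x (e (Sum.inl (i + 1)))) = omega d α γ) ∧
    (∀ i : Fin 4, inner ℝ (x (e (Sum.inl i))) (x (e (Sum.inl (i + 2)))) = 2 * omega d α γ - 1)

open Pool.Agent.Riesz

lemma omega_eq (m : ℕ) (α γ : ℝ) : omega (m + 1) α γ = om m α γ := by
  unfold omega om
  push_cast
  congr 1
  · ring
  · ring

lemma mem_Params (m : ℕ) (α γ : ℝ) : (α, γ) ∈ Params (m + 1) ↔ InDom m α γ := by
  unfold Params InDom
  simp only [Set.mem_ofPred_eq, omega_eq]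
  have e : (((m + 1 : ℕ) : ℝ) - 2) * γ = ((m : ℝ) - 1) * γ := by push_cast; ring
  rw [e]

lemma two_mul_rpow {g β : ℝ} (hg : g < 1) : (2 * (1 - g)) ^ (-β) = 2 ^ (-β) * G β g := by
  rw [G_eq hg, Real.mul_rpow (by norm_num) (by linarith)]

lemma redEnergy_eq {m : ℕ} {s α γ : ℝ} (h : InDom m α γ) :
    redEnergy (m + 1) s α γ = 2 ^ (-(s / 2)) * (2 * Phi m (s / 2) α γ) := by
  obtain ⟨h1, h2, h3, h4⟩ := h
  have e1 : (2 + 2 * α) ^ (-s / 2) = 2 ^ (-(s / 2)) * G (s / 2) (-α) := by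
    rw [← two_mul_rpow (by linarith), neg_div]; congr 1; ring
  have e2 : (2 + 2 * γ) ^ (-s / 2) = 2 ^ (-(s / 2)) * G (s / 2) (-γ) := by
    rw [← two_mul_rpow (by linarith), neg_div]; congr 1; ring
  have e3 : (2 - 2 * om m α γ) ^ (-s / 2) = 2 ^ (-(s / 2)) * G (s / 2) (om m α γ) := by
    rw [← two_mul_rpow h4, neg_div]; congr 1; ring
  have e4 : (4 - 4 * om m α γ) ^ (-s / 2) = 2 ^ (-(s / 2)) * G (s / 2) (2 * om m α γ - 1) := by
    rw [← two_mul_rpow (by linarith), neg_div]; congr 1; ring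
  unfold redEnergy Phi
  rw [omega_eq, e1, e2, e3, e4]
  push_cast
  ring

lemma norm_rpow {n : ℕ} {u v : EuclideanSpace ℝ (Fin n)} {s : ℝ} (hu : ‖u‖ = 1) (hv : ‖v‖ = 1)
    (hne : u ≠ v) : (inner ℝ u v : ℝ) < 1 ∧
      ‖u - v‖ ^ (-s) = 2 ^ (-(s / 2)) * G (s / 2) (inner ℝ u v) := by
  have h1 : ‖u - v‖ ^ 2 = 2 * (1 - inner ℝ u v) := by
    rw [norm_sub_sq_real, hu, hv]; ring
  have h2 : 0 < ‖u - v‖ := norm_pos_iff.2 (sub_ne_zero.2 hne)
  have h3 : (inner ℝ u v : ℝ) < 1 := by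
    have : 0 < ‖u - v‖ ^ 2 := by positivity
    linarith
  refine ⟨h3, ?_⟩
  rw [← two_mul_rpow h3, ← h1, ← Real.rpow_natCast ‖u - v‖ 2, ← Real.rpow_mul h2.le]
  congr 1
  push_cast
  ring

lemma energy_eq {d : ℕ} {s : ℝ} {x : Fin (d + 3) → EuclideanSpace ℝ (Fin (d + 1))}
    (hx : IsConfig d x) : rieszEnergy s x = 2 ^ (-(s / 2)) * dsum (s / 2) x := by
  unfold rieszEnergy dsum
  rw [Finset.mul_sum]
  refine Finset.sum_congr rfl (fun i _ => ?_)
  rw [Finset.mul_sum]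
  refine Finset.sum_congr rfl (fun j _ => ?_)
  split_ifs with hij
  · simp
  · exact (norm_rpow (hx.2 i) (hx.2 j) (fun h => hij (hx.1 h))).2

lemma shape_of_sym {m : ℕ} {α γ : ℝ}
    {x : Fin (m + 1 + 3) → EuclideanSpace ℝ (Fin (m + 1 + 1))} {e : Fin 4 ⊕ Fin m ≃ Fin (m + 1 + 3)}
    (h : IsSym α γ (x (e (Sum.inl 0))) (x (e (Sum.inl 1)))
      (x (e (Sum.inl 2))) (x (e (Sum.inl 3))) (fun k => x (e (Sum.inr k)))) :
    HasShape (m + 1) α γ x := by
  have hcm : (Fintype.card (Fin m) : ℝ) = m := by rw [Fintype.card_fin]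
  obtain ⟨a0, a1, a2, a3, b, c01, c03, c21, c23, d02, d13⟩ := h
  rw [hcm] at c01 c03 c21 c23 d02 d13
  refine ⟨e, ?_, b, ?_, ?_⟩
  · intro i k
    fin_cases i
    · exact a0 k
    · exact a1 k
    · exact a2 k
    · exact a3 k
  · intro i
    rw [omega_eq]
    fin_cases i
    · exact c01
    · exact (real_inner_comm _ _).trans c21
    · exact c23
    · exact (real_inner_comm _ _).trans c03
  · intro i
    rw [omega_eq]
    fin_cases i
    · exact d02
    · exact d13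
    · exact (real_inner_comm _ _).trans d02
    · exact (real_inner_comm _ _).trans d13

lemma sym_of_shape {m : ℕ} {α γ : ℝ}
    {x : Fin (m + 1 + 3) → EuclideanSpace ℝ (Fin (m + 1 + 1))} {e : Fin 4 ⊕ Fin m ≃ Fin (m + 1 + 3)}
    (h1 : ∀ (i : Fin 4) (k : Fin m), inner ℝ (x (e (Sum.inl i))) (x (e (Sum.inr k))) = -α)
    (h2 : ∀ k l : Fin m, k ≠ l → inner ℝ (x (e (Sum.inr k))) (x (e (Sum.inr l))) = -γ)
    (h3 : ∀ i : Fin 4, inner ℝ (x (e (Sum.inl i))) (x (e (Sum.inl (i + 1)))) = omega (m + 1) α γ)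
    (h4 : ∀ i : Fin 4, inner ℝ (x (e (Sum.inl i))) (x (e (Sum.inl (i + 2))))
      = 2 * omega (m + 1) α γ - 1) :
    IsSym α γ (x (e (Sum.inl 0))) (x (e (Sum.inl 1)))
      (x (e (Sum.inl 2))) (x (e (Sum.inl 3))) (fun k => x (e (Sum.inr k))) := by
  have hcm : (Fintype.card (Fin m) : ℝ) = m := by rw [Fintype.card_fin]
  refine ⟨h1 0, h1 1, h1 2, h1 3, h2, ?_, ?_, ?_, ?_, ?_, ?_⟩ <;> rw [hcm, ← omega_eq]
  · exact h3 0
  · exact (real_inner_comm _ _).trans (h3 3)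
  · exact (real_inner_comm _ _).trans (h3 1)
  · exact h3 2
  · exact h4 0
  · exact h4 1

/-- The Gram matrices of two labelled configurations of the same shape agree. -/
lemma gram_eq {m : ℕ} {α γ : ℝ} {V : Type*} [NormedAddCommGroup V] [InnerProductSpace ℝ V]
    {u w : Fin 4 ⊕ Fin m → V} (hu : ∀ p, ‖u p‖ = 1) (hw : ∀ p, ‖w p‖ = 1)
    (h : IsSym α γ (u (Sum.inl 0)) (u (Sum.inl 1)) (u (Sum.inl 2)) (u (Sum.inl 3))
      (fun k => u (Sum.inr k)))
    (h' : IsSym α γ (w (Sum.inl 0)) (w (Sum.inl 1)) (w (Sum.inl 2)) (w (Sum.inl 3))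
      (fun k => w (Sum.inr k))) (p q : Fin 4 ⊕ Fin m) :
    inner ℝ (u p) (u q) = (inner ℝ (w p) (w q) : ℝ) := by
  have hself : ∀ p, inner ℝ (u p) (u p) = (inner ℝ (w p) (w p) : ℝ) := by
    intro p
    rw [real_inner_self_eq_norm_sq, real_inner_self_eq_norm_sq, hu, hw]
  have hil : ∀ (i : Fin 4) k, inner ℝ (u (Sum.inl i)) (u (Sum.inr k))
      = (inner ℝ (w (Sum.inl i)) (w (Sum.inr k)) : ℝ) := by
    intro i k
    fin_cases i
    · exact (h.a0 k).trans (h'.a0 k).symm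
    · exact (h.a1 k).trans (h'.a1 k).symm
    · exact (h.a2 k).trans (h'.a2 k).symm
    · exact (h.a3 k).trans (h'.a3 k).symm
  have flip : ∀ p q, inner ℝ (u p) (u q) = (inner ℝ (w p) (w q) : ℝ) →
      inner ℝ (u q) (u p) = (inner ℝ (w q) (w p) : ℝ) := by
    intro p q hpq
    rw [real_inner_comm, hpq, real_inner_comm]
  rcases p with i | k <;> rcases q with j | l
  · have h01 := h.c01.trans h'.c01.symm
    have h03 := h.c03.trans h'.c03.symm
    have h21 := h.c21.trans h'.c21.symm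
    have h23 := h.c23.trans h'.c23.symm
    have h02 := h.d02.trans h'.d02.symm
    have h13 := h.d13.trans h'.d13.symm
    fin_cases i <;> fin_cases j
    · exact hself _
    · exact h01
    · exact h02
    · exact h03
    · exact flip _ _ h01
    · exact hself _
    · exact flip _ _ h21
    · exact h13
    · exact flip _ _ h02
    · exact h21
    · exact hself _
    · exact h23
    · exact flip _ _ h03
    · exact flip _ _ h13
    · exact flip _ _ h23
    · exact hself _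
  · exact hil i l
  · exact flip _ _ (hil j k)
  · by_cases hkl : k = l
    · subst hkl; exact hself _
    · exact (h.b k l hkl).trans (h'.b k l hkl).symm

/-- For every `d ≥ 3` and every `s ≥ 2 (d+1) (log (d+1) + 500)` the Riesz `s`-energy minimizing
`(d+3)`-point configurations on `S^d` are exactly those of the shape described by `HasShape` for the
parameters minimizing the explicit function `redEnergy`, and the minimizer is unique up to
orthogonal transformations and relabelling. -/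
theorem result (d : ℕ) (hd : 3 ≤ d) (s : ℝ)
    (hs : 2 * ((d : ℝ) + 1) * (Real.log ((d : ℝ) + 1) + 500) ≤ s) :
    (∃ p ∈ Params d, ∀ q ∈ Params d, redEnergy d s p.1 p.2 ≤ redEnergy d s q.1 q.2) ∧
    (∀ p ∈ Params d, (∀ q ∈ Params d, redEnergy d s p.1 p.2 ≤ redEnergy d s q.1 q.2) →
      ∀ x : Fin (d + 3) → EuclideanSpace ℝ (Fin (d + 1)),
        IsMinimizer d s x ↔ IsConfig d x ∧ HasShape d p.1 p.2 x) ∧
    (∃ x : Fin (d + 3) → EuclideanSpace ℝ (Fin (d + 1)), IsMinimizer d s x) ∧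
    (∀ x x' : Fin (d + 3) → EuclideanSpace ℝ (Fin (d + 1)), IsMinimizer d s x →
      IsMinimizer d s x' → ∃ (A : EuclideanSpace ℝ (Fin (d + 1)) ≃ₗᵢ[ℝ]
        EuclideanSpace ℝ (Fin (d + 1))) (σ : Equiv.Perm (Fin (d + 3))),
        ∀ i, x' (σ i) = A (x i)) := by
  obtain ⟨m, rfl⟩ : ∃ m, d = m + 1 := ⟨d - 1, by omega⟩
  have hm2 : 2 ≤ m := by omega
  have hm : 1 ≤ m := by omega
  have hm' : (1 : ℝ) ≤ m := by exact_mod_cast hm
  set β : ℝ := s / 2 with hβdef
  have hcast : ((m + 1 : ℕ) : ℝ) + 1 = (m : ℝ) + 2 := by push_cast; ring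
  rw [hcast] at hs
  have hβq : ((m : ℝ) + 2) * (log ((m : ℝ) + 2) + 500) ≤ β := by
    rw [hβdef, le_div_iff₀ (by norm_num)]; linarith
  obtain ⟨hβ2, -, -⟩ := Pool.Agent.RieszSq.range_basic hm2 hβq
  have hβ : 0 < β := by linarith
  have h2pos : (0 : ℝ) < 2 ^ (-(s / 2)) := Real.rpow_pos_of_pos (by norm_num) _
  have hfr : Module.finrank ℝ (EuclideanSpace ℝ (Fin (m + 1 + 1))) = m + 2 := by
    rw [finrank_euclideanSpace_fin]
  have hcard : Fintype.card (Fin (m + 1 + 3)) = m + 4 := by rw [Fintype.card_fin]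
  -- parameter minimization transfers
  have hPar : ∀ p ∈ Params (m + 1),
      (∀ q ∈ Params (m + 1), redEnergy (m + 1) s p.1 p.2 ≤ redEnergy (m + 1) s q.1 q.2) ↔
      (∀ a g, InDom m a g → Phi m β p.1 p.2 ≤ Phi m β a g) := by
    intro p hp
    have hp' : InDom m p.1 p.2 := (mem_Params m p.1 p.2).1 hp
    constructor
    · intro h a g hag
      have h1 := h (a, g) ((mem_Params m a g).2 hag)
      rw [redEnergy_eq hp', redEnergy_eq hag] at h1
      have h2 := le_of_mul_le_mul_left h1 h2pos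
      linarith
    · intro h q hq
      have hq' : InDom m q.1 q.2 := (mem_Params m q.1 q.2).1 hq
      rw [redEnergy_eq hp', redEnergy_eq hq']
      apply mul_le_mul_of_nonneg_left _ h2pos.le
      linarith [h q.1 q.2 hq']
  -- existence of the minimizing parameters
  have hex : ∃ α γ : ℝ, InDom m α γ ∧ ∀ a g, InDom m a g → Phi m β α γ ≤ Phi m β a g := by
    obtain ⟨α', γ', hd1, hd2, hd3, hd4⟩ := Pool.Agent.RieszSq.test_point hm2 hβq
    exact Pool.Agent.RieszSq.exists_min0 hm2 (by linarith) hd1 hd2 hd3 hd4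
  -- the symmetric configuration
  have hconf : ∀ α γ : ℝ, InDom m α γ → ∃ x : Fin (m + 1 + 3) → EuclideanSpace ℝ (Fin (m + 1 + 1)),
      IsConfig (m + 1) x ∧ dsum β x = 2 * Phi m β α γ ∧
      ∃ e : Fin 4 ⊕ Fin m ≃ Fin (m + 1 + 3), IsSym α γ (x (e (Sum.inl 0))) (x (e (Sum.inl 1)))
        (x (e (Sum.inl 2))) (x (e (Sum.inl 3))) (fun k => x (e (Sum.inr k))) := by
    intro α γ hαγ
    have hcm : (Fintype.card (Fin m) : ℝ) = m := by rw [Fintype.card_fin]
    let eb : Fin (m + 1 + 1) ≃ Fin m ⊕ Fin 2 := (finSumFinEquiv (m := m) (n := 2)).symm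
    let ob := (EuclideanSpace.basisFun (Fin (m + 1 + 1)) ℝ).reindex eb
    obtain ⟨x0, x1, x2, x3, y, n0, n1, n2, n3, ny, hsym⟩ := exists_sym (κ := Fin m)
      (e := ob) ob.orthonormal (by rw [hcm]; exact hm') (α := α) (γ := γ) (by rw [hcm]; exact hαγ)
    let e : Fin 4 ⊕ Fin m ≃ Fin (m + 1 + 3) := Fintype.equivOfCardEq (by simp; ring)
    let u : Fin 4 ⊕ Fin m → EuclideanSpace ℝ (Fin (m + 1 + 1)) := Sum.elim ![x0, x1, x2, x3] y
    have hu1 : ∀ p, ‖u p‖ = 1 := by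
      rintro (i | k)
      · fin_cases i
        · exact n0
        · exact n1
        · exact n2
        · exact n3
      · exact ny k
    have husym : IsSym α γ (u (Sum.inl 0)) (u (Sum.inl 1)) (u (Sum.inl 2)) (u (Sum.inl 3))
        (fun k => u (Sum.inr k)) := hsym
    have hlt := husym.lt_one (by rw [hcm]; exact hαγ)
    refine ⟨fun i => u (e.symm i), ⟨?_, fun i => hu1 _⟩, ?_, e, ?_⟩
    · intro i j hij
      by_contra hne
      have h1 := hlt (e.symm i) (e.symm j) (fun h => hne (e.symm.injective h))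
      have hij' : u (e.symm i) = u (e.symm j) := hij
      rw [hij', real_inner_self_eq_norm_sq, hu1] at h1
      norm_num at h1
    · rw [dsum_relabel e.symm β u, dsum_eq, Etot_sym husym, hcm]
    · simpa using husym
  -- lower bound
  have hlow : ∀ α γ : ℝ, InDom m α γ → (∀ a g, InDom m a g → Phi m β α γ ≤ Phi m β a g) →
      ∀ x : Fin (m + 1 + 3) → EuclideanSpace ℝ (Fin (m + 1 + 1)), IsConfig (m + 1) x →
        dsum β x ≤ 2 * Phi m β α γ →
        ∃ e : Fin 4 ⊕ Fin m ≃ Fin (m + 1 + 3), IsSym α γ (x (e (Sum.inl 0))) (x (e (Sum.inl 1)))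
        (x (e (Sum.inl 2))) (x (e (Sum.inl 3))) (fun k => x (e (Sum.inr k))) := by
    intro α γ hαγ hmin x hx hle
    exact Pool.Agent.RieszSq.key_low2 hm2 hβq hcard hfr hx.2
      (fun i j hij => (norm_rpow (s := s) (hx.2 i) (hx.2 j) (fun h => hij (hx.1 h))).1) hαγ hmin hle
  have hsymE : ∀ (α γ : ℝ) (x : Fin (m + 1 + 3) → EuclideanSpace ℝ (Fin (m + 1 + 1)))
      (e : Fin 4 ⊕ Fin m ≃ Fin (m + 1 + 3)), IsSym α γ (x (e (Sum.inl 0))) (x (e (Sum.inl 1)))
        (x (e (Sum.inl 2))) (x (e (Sum.inl 3))) (fun k => x (e (Sum.inr k))) →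
        dsum β x = 2 * Phi m β α γ := by
    intro α γ x e h
    rw [← dsum_relabel e β x, dsum_eq, Etot_sym h, Fintype.card_fin]
  have hge : ∀ α γ : ℝ, InDom m α γ → (∀ a g, InDom m a g → Phi m β α γ ≤ Phi m β a g) →
      ∀ x : Fin (m + 1 + 3) → EuclideanSpace ℝ (Fin (m + 1 + 1)), IsConfig (m + 1) x →
        2 * Phi m β α γ ≤ dsum β x := by
    intro α γ hαγ hmin x hx
    by_contra hcon
    push Not at hcon
    obtain ⟨e, he⟩ := hlow α γ hαγ hmin x hx hcon.le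
    have := hsymE α γ x e he
    linarith
  have hminiff : ∀ α γ : ℝ, InDom m α γ → (∀ a g, InDom m a g → Phi m β α γ ≤ Phi m β a g) →
      ∀ x : Fin (m + 1 + 3) → EuclideanSpace ℝ (Fin (m + 1 + 1)),
        IsMinimizer (m + 1) s x ↔ IsConfig (m + 1) x ∧ dsum β x ≤ 2 * Phi m β α γ := by
    intro α γ hαγ hmin x
    constructor
    · rintro ⟨hx, hx'⟩
      refine ⟨hx, ?_⟩
      obtain ⟨z, hz, hzE, -⟩ := hconf α γ hαγ
      have h1 := hx' z hz
      rw [energy_eq hx, energy_eq hz] at h1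
      have h2 := le_of_mul_le_mul_left h1 h2pos
      change dsum β x ≤ dsum β z at h2
      linarith
    · rintro ⟨hx, hle⟩
      refine ⟨hx, fun z hz => ?_⟩
      rw [energy_eq hx, energy_eq hz]
      apply mul_le_mul_of_nonneg_left _ h2pos.le
      exact hle.trans (hge α γ hαγ hmin z hz)
  obtain ⟨α, γ, hαγ, hmin⟩ := hex
  refine ⟨?_, ?_, ?_, ?_⟩
  · refine ⟨(α, γ), (mem_Params m α γ).2 hαγ, ?_⟩
    exact (hPar (α, γ) ((mem_Params m α γ).2 hαγ)).2 hmin
  · intro p hp hpm x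
    have hp' : InDom m p.1 p.2 := (mem_Params m p.1 p.2).1 hp
    have hpm' := (hPar p hp).1 hpm
    rw [hminiff p.1 p.2 hp' hpm' x]
    constructor
    · rintro ⟨hx, hle⟩
      obtain ⟨e, he⟩ := hlow p.1 p.2 hp' hpm' x hx hle
      exact ⟨hx, shape_of_sym he⟩
    · rintro ⟨hx, e, h1, h2, h3, h4⟩
      exact ⟨hx, (hsymE p.1 p.2 x e (sym_of_shape h1 h2 h3 h4)).le⟩
  · obtain ⟨z, hz, hzE, -⟩ := hconf α γ hαγ
    exact ⟨z, (hminiff α γ hαγ hmin z).2 ⟨hz, hzE.le⟩⟩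
  · intro x x' hx hx'
    obtain ⟨hxc, hxE⟩ := (hminiff α γ hαγ hmin x).1 hx
    obtain ⟨hxc', hxE'⟩ := (hminiff α γ hαγ hmin x').1 hx'
    obtain ⟨e, he⟩ := hlow α γ hαγ hmin x hxc hxE
    obtain ⟨e', he'⟩ := hlow α γ hαγ hmin x' hxc' hxE'
    obtain ⟨A, hA⟩ := exists_isometry (f := fun p => x (e p)) (g := fun p => x' (e' p))
      (gram_eq (u := fun p => x (e p)) (w := fun p => x' (e' p)) (fun p => hxc.2 _)
        (fun p => hxc'.2 _) he he')
    refine ⟨A, e.symm.trans e', fun i => ?_⟩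
    have := hA (e.symm i)
    simp only [Equiv.apply_symm_apply] at this
    rw [this]
    rfl

end Pool.Agent.Results.MP_743703_an.LargeExponent
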