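import Mathlib
import Pool.Agent.RieszWin.Final
import Pool.Agent.RieszWin.Low
import Pool.Agent.RieszWin.Top

set_option autoImplicit false

open Real Finset

namespace Pool.Agent.Results.MP_743703_an.PhaseDiagram

/-- The Riesz `s`-energy of a finite family of points: the sum of `‖x i - x j‖ ^ (-s)` over all
ordered pairs of different indices. -/
noncomputable def rieszEnergy {n : ℕ} {V : Type} [NormedAddCommGroup V] (s : ℝ) (x : Fin n → V) :
    ℝ :=
  ∑ i, ∑ j, if i = j then 0 else ‖x i - x j‖ ^ (-s)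

/-- `x` lists `d + 3` distinct points of the unit sphere `S^d` of `ℝ^(d+1)`. -/
def IsConfig (d : ℕ) (x : Fin (d + 3) → EuclideanSpace ℝ (Fin (d + 1))) : Prop :=
  Function.Injective x ∧ ∀ i, ‖x i‖ = 1

/-- `x` minimizes the Riesz `s`-energy among all `(d+3)`-point configurations on `S^d`. -/
def IsMinimizer (d : ℕ) (s : ℝ) (x : Fin (d + 3) → EuclideanSpace ℝ (Fin (d + 1))) : Prop :=
  IsConfig d x ∧ ∀ x', IsConfig d x' → rieszEnergy s x ≤ rieszEnergy s x'

/-- The points of `x` with index in `P` and the points with index outside `P` are the vertex sets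
of two regular simplices in orthogonal subspaces: two different points of the first group have
inner product `-1 / (|P| - 1)`, two different points of the second group have inner product
`-1 / ((d + 3 - |P|) - 1)`, and points of different groups are orthogonal. -/
def OrthogonalSimplices (d : ℕ) (P : Finset (Fin (d + 3)))
    (x : Fin (d + 3) → EuclideanSpace ℝ (Fin (d + 1))) : Prop :=
  (∀ i ∈ P, ∀ j ∈ P, i ≠ j → inner ℝ (x i) (x j) = -1 / ((P.card : ℝ) - 1)) ∧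
  (∀ i, i ∉ P → ∀ j, j ∉ P → i ≠ j →
    inner ℝ (x i) (x j) = -1 / (((d : ℝ) + 3 - P.card) - 1)) ∧
  (∀ i ∈ P, ∀ j, j ∉ P → inner ℝ (x i) (x j) = (0 : ℝ))

/-- `x` is a pair of orthogonal regular simplices with `k` and `d + 3 - k` vertices. -/
def IsSimplexPair (d k : ℕ) (x : Fin (d + 3) → EuclideanSpace ℝ (Fin (d + 1))) : Prop :=
  ∃ P : Finset (Fin (d + 3)), P.card = k ∧ OrthogonalSimplices d P x

/-- `ω = (d-1) α² / (1 - (d-2) γ)`. -/
noncomputable def omega (d : ℕ) (α γ : ℝ) : ℝ := ((d : ℝ) - 1) * α ^ 2 / (1 - ((d : ℝ) - 2) * γ)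

/-- The admissible parameters `(α, γ)`. -/
def Params (d : ℕ) : Set (ℝ × ℝ) :=
  {p | 0 < p.1 ∧ 0 ≤ p.2 ∧ ((d : ℝ) - 2) * p.2 < 1 ∧ omega d p.1 p.2 < 1}

/-- The energy of the lifted square with parameters `(α, γ)`, in closed form. -/
noncomputable def redEnergy (d : ℕ) (s α γ : ℝ) : ℝ :=
  8 * ((d : ℝ) - 1) * (2 + 2 * α) ^ (-s / 2)
    + ((d : ℝ) - 1) * ((d : ℝ) - 2) * (2 + 2 * γ) ^ (-s / 2)
    + 8 * (2 - 2 * omega d α γ) ^ (-s / 2)
    + 4 * (4 - 4 * omega d α γ) ^ (-s / 2)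

/-- Lifted square: after a labelling of the points as `a 0, a 1, a 2, a 3` (cyclically ordered) and
`b 1, ..., b (d-1)`: `⟨a i, b k⟩ = -α`, `⟨b k, b l⟩ = -γ` for `k ≠ l`, `⟨a i, a (i+1)⟩ = ω` and
`⟨a i, a (i+2)⟩ = 2 ω - 1`. -/
def HasShape (d : ℕ) (α γ : ℝ) (x : Fin (d + 3) → EuclideanSpace ℝ (Fin (d + 1))) : Prop :=
  ∃ e : Fin 4 ⊕ Fin (d - 1) ≃ Fin (d + 3),
    (∀ (i : Fin 4) (k : Fin (d - 1)),
      inner ℝ (x (e (Sum.inl i))) (x (e (Sum.inr k))) = -α) ∧
    (∀ k l : Fin (d - 1), k ≠ l → inner ℝ (x (e (Sum.inr k))) (x (e (Sum.inr l))) = -γ) ∧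
    (∀ i : Fin 4, inner ℝ (x (e (Sum.inl i))) (x (e (Sum.inl (i + 1)))) = omega d α γ) ∧
    (∀ i : Fin 4, inner ℝ (x (e (Sum.inl i))) (x (e (Sum.inl (i + 2)))) = 2 * omega d α γ - 1)

/-- `x` is a lifted square whose parameters minimize `redEnergy` (for the exponent `s`) over all
admissible parameters. -/
def IsOptimalLiftedSquare (d : ℕ) (s : ℝ) (x : Fin (d + 3) → EuclideanSpace ℝ (Fin (d + 1))) :
    Prop :=
  ∃ p ∈ Params d, (∀ q ∈ Params d, redEnergy d s p.1 p.2 ≤ redEnergy d s q.1 q.2) ∧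
    HasShape d p.1 p.2 x

/-- `x` and `x'` agree up to an orthogonal transformation and a relabelling. -/
def Congruent (d : ℕ) (x x' : Fin (d + 3) → EuclideanSpace ℝ (Fin (d + 1))) : Prop :=
  ∃ (A : EuclideanSpace ℝ (Fin (d + 1)) ≃ₗᵢ[ℝ] EuclideanSpace ℝ (Fin (d + 1)))
    (σ : Equiv.Perm (Fin (d + 3))), ∀ i, x' (σ i) = A (x i)

open Pool.Agent.Riesz (InDom om G G_eq G_zero dsum IsSym dsum_relabel dsum_eq Etot_sym exists_sym exists_isometry)

lemma omega_eq (m : ℕ) (α γ : ℝ) : omega (m + 1) α γ = om m α γ := by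
  unfold omega om
  push_cast
  congr 1
  · ring
  · ring

lemma mem_Params (m : ℕ) (α γ : ℝ) : (α, γ) ∈ Params (m + 1) ↔ InDom m α γ := by
  unfold Params InDom
  simp only [Set.mem_ofPred_eq, omega_eq]
  have e : (((m + 1 : ℕ) : ℝ) - 2) * γ = ((m : ℝ) - 1) * γ := by push_cast; ring
  rw [e]

lemma two_mul_rpow {g β : ℝ} (hg : g < 1) : (2 * (1 - g)) ^ (-β) = 2 ^ (-β) * G β g := by
  rw [G_eq hg, Real.mul_rpow (by norm_num) (by linarith)]

lemma redEnergy_eq {m : ℕ} {s α γ : ℝ} (h : InDom m α γ) :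
    redEnergy (m + 1) s α γ = 2 ^ (-(s / 2)) * (2 * Pool.Agent.Riesz.Phi m (s / 2) α γ) := by
  obtain ⟨h1, h2, h3, h4⟩ := h
  have e1 : (2 + 2 * α) ^ (-s / 2) = 2 ^ (-(s / 2)) * G (s / 2) (-α) := by
    rw [← two_mul_rpow (by linarith), neg_div]; congr 1; ring
  have e2 : (2 + 2 * γ) ^ (-s / 2) = 2 ^ (-(s / 2)) * G (s / 2) (-γ) := by
    rw [← two_mul_rpow (by linarith), neg_div]; congr 1; ring
  have e3 : (2 - 2 * om m α γ) ^ (-s / 2) = 2 ^ (-(s / 2)) * G (s / 2) (om m α γ) := by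
    rw [← two_mul_rpow h4, neg_div]; congr 1; ring
  have e4 : (4 - 4 * om m α γ) ^ (-s / 2) = 2 ^ (-(s / 2)) * G (s / 2) (2 * om m α γ - 1) := by
    rw [← two_mul_rpow (by linarith), neg_div]; congr 1; ring
  unfold redEnergy Pool.Agent.Riesz.Phi
  rw [omega_eq, e1, e2, e3, e4]
  push_cast
  ring

lemma norm_rpow {n : ℕ} {u v : EuclideanSpace ℝ (Fin n)} {s : ℝ} (hu : ‖u‖ = 1) (hv : ‖v‖ = 1)
    (hne : u ≠ v) : (inner ℝ u v : ℝ) < 1 ∧
      ‖u - v‖ ^ (-s) = 2 ^ (-(s / 2)) * G (s / 2) (inner ℝ u v) := by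
  have h1 : ‖u - v‖ ^ 2 = 2 * (1 - inner ℝ u v) := by
    rw [norm_sub_sq_real, hu, hv]; ring
  have h2 : 0 < ‖u - v‖ := norm_pos_iff.2 (sub_ne_zero.2 hne)
  have h3 : (inner ℝ u v : ℝ) < 1 := by
    have : 0 < ‖u - v‖ ^ 2 := by positivity
    linarith
  refine ⟨h3, ?_⟩
  rw [← two_mul_rpow h3, ← h1, ← Real.rpow_natCast ‖u - v‖ 2, ← Real.rpow_mul h2.le]
  congr 1
  push_cast
  ring

lemma energy_eq {d : ℕ} {s : ℝ} {x : Fin (d + 3) → EuclideanSpace ℝ (Fin (d + 1))}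
    (hx : IsConfig d x) : rieszEnergy s x = 2 ^ (-(s / 2)) * dsum (s / 2) x := by
  unfold rieszEnergy dsum
  rw [Finset.mul_sum]
  refine Finset.sum_congr rfl (fun i _ => ?_)
  rw [Finset.mul_sum]
  refine Finset.sum_congr rfl (fun j _ => ?_)
  split_ifs with hij
  · simp
  · exact (norm_rpow (hx.2 i) (hx.2 j) (fun h => hij (hx.1 h))).2

lemma shape_of_sym {m : ℕ} {α γ : ℝ}
    {x : Fin (m + 1 + 3) → EuclideanSpace ℝ (Fin (m + 1 + 1))} {e : Fin 4 ⊕ Fin m ≃ Fin (m + 1 + 3)}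
    (h : IsSym α γ (x (e (Sum.inl 0))) (x (e (Sum.inl 1)))
      (x (e (Sum.inl 2))) (x (e (Sum.inl 3))) (fun k => x (e (Sum.inr k)))) :
    HasShape (m + 1) α γ x := by
  have hcm : (Fintype.card (Fin m) : ℝ) = m := by rw [Fintype.card_fin]
  obtain ⟨a0, a1, a2, a3, b, c01, c03, c21, c23, d02, d13⟩ := h
  rw [hcm] at c01 c03 c21 c23 d02 d13
  refine ⟨e, ?_, b, ?_, ?_⟩
  · intro i k
    fin_cases i
    · exact a0 k
    · exact a1 k
    · exact a2 k
    · exact a3 k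
  · intro i
    rw [omega_eq]
    fin_cases i
    · exact c01
    · exact (real_inner_comm _ _).trans c21
    · exact c23
    · exact (real_inner_comm _ _).trans c03
  · intro i
    rw [omega_eq]
    fin_cases i
    · exact d02
    · exact d13
    · exact (real_inner_comm _ _).trans d02
    · exact (real_inner_comm _ _).trans d13

lemma sym_of_shape {m : ℕ} {α γ : ℝ}
    {x : Fin (m + 1 + 3) → EuclideanSpace ℝ (Fin (m + 1 + 1))} {e : Fin 4 ⊕ Fin m ≃ Fin (m + 1 + 3)}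
    (h1 : ∀ (i : Fin 4) (k : Fin m), inner ℝ (x (e (Sum.inl i))) (x (e (Sum.inr k))) = -α)
    (h2 : ∀ k l : Fin m, k ≠ l → inner ℝ (x (e (Sum.inr k))) (x (e (Sum.inr l))) = -γ)
    (h3 : ∀ i : Fin 4, inner ℝ (x (e (Sum.inl i))) (x (e (Sum.inl (i + 1)))) = omega (m + 1) α γ)
    (h4 : ∀ i : Fin 4, inner ℝ (x (e (Sum.inl i))) (x (e (Sum.inl (i + 2))))
      = 2 * omega (m + 1) α γ - 1) :
    IsSym α γ (x (e (Sum.inl 0))) (x (e (Sum.inl 1)))
      (x (e (Sum.inl 2))) (x (e (Sum.inl 3))) (fun k => x (e (Sum.inr k))) := by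
  have hcm : (Fintype.card (Fin m) : ℝ) = m := by rw [Fintype.card_fin]
  refine ⟨h1 0, h1 1, h1 2, h1 3, h2, ?_, ?_, ?_, ?_, ?_, ?_⟩ <;> rw [hcm, ← omega_eq]
  · exact h3 0
  · exact (real_inner_comm _ _).trans (h3 3)
  · exact (real_inner_comm _ _).trans (h3 1)
  · exact h3 2
  · exact h4 0
  · exact h4 1

/-- The Gram matrices of two labelled configurations of the same shape agree. -/
lemma gram_eq {m : ℕ} {α γ : ℝ} {V : Type*} [NormedAddCommGroup V] [InnerProductSpace ℝ V]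
    {u w : Fin 4 ⊕ Fin m → V} (hu : ∀ p, ‖u p‖ = 1) (hw : ∀ p, ‖w p‖ = 1)
    (h : IsSym α γ (u (Sum.inl 0)) (u (Sum.inl 1)) (u (Sum.inl 2)) (u (Sum.inl 3))
      (fun k => u (Sum.inr k)))
    (h' : IsSym α γ (w (Sum.inl 0)) (w (Sum.inl 1)) (w (Sum.inl 2)) (w (Sum.inl 3))
      (fun k => w (Sum.inr k))) (p q : Fin 4 ⊕ Fin m) :
    inner ℝ (u p) (u q) = (inner ℝ (w p) (w q) : ℝ) := by
  have hself : ∀ p, inner ℝ (u p) (u p) = (inner ℝ (w p) (w p) : ℝ) := by
    intro p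
    rw [real_inner_self_eq_norm_sq, real_inner_self_eq_norm_sq, hu, hw]
  have hil : ∀ (i : Fin 4) k, inner ℝ (u (Sum.inl i)) (u (Sum.inr k))
      = (inner ℝ (w (Sum.inl i)) (w (Sum.inr k)) : ℝ) := by
    intro i k
    fin_cases i
    · exact (h.a0 k).trans (h'.a0 k).symm
    · exact (h.a1 k).trans (h'.a1 k).symm
    · exact (h.a2 k).trans (h'.a2 k).symm
    · exact (h.a3 k).trans (h'.a3 k).symm
  have flip : ∀ p q, inner ℝ (u p) (u q) = (inner ℝ (w p) (w q) : ℝ) →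
      inner ℝ (u q) (u p) = (inner ℝ (w q) (w p) : ℝ) := by
    intro p q hpq
    rw [real_inner_comm, hpq, real_inner_comm]
  rcases p with i | k <;> rcases q with j | l
  · have h01 := h.c01.trans h'.c01.symm
    have h03 := h.c03.trans h'.c03.symm
    have h21 := h.c21.trans h'.c21.symm
    have h23 := h.c23.trans h'.c23.symm
    have h02 := h.d02.trans h'.d02.symm
    have h13 := h.d13.trans h'.d13.symm
    fin_cases i <;> fin_cases j
    · exact hself _
    · exact h01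
    · exact h02
    · exact h03
    · exact flip _ _ h01
    · exact hself _
    · exact flip _ _ h21
    · exact h13
    · exact flip _ _ h02
    · exact h21
    · exact hself _
    · exact h23
    · exact flip _ _ h03
    · exact flip _ _ h13
    · exact flip _ _ h23
    · exact hself _
  · exact hil i l
  · exact flip _ _ (hil j k)
  · by_cases hkl : k = l
    · subst hkl; exact hself _
    · exact (h.b k l hkl).trans (h'.b k l hkl).symm


lemma cfg_iff {n : ℕ} {x : Fin (n + 1 + 3) → EuclideanSpace ℝ (Fin (n + 1 + 1))} :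
    IsConfig (n + 1) x ↔ Pool.Agent.RieszWin.Cfg x := Iff.rfl

lemma card_compl_cast {d : ℕ} (P : Finset (Fin (d + 3))) :
    ((Pᶜ.card : ℕ) : ℝ) = (d : ℝ) + 3 - P.card := by
  rw [Finset.card_compl, Fintype.card_fin, Nat.cast_sub]
  · push_cast; ring
  · simpa using Finset.card_le_univ P

lemma orth_iff {d : ℕ} {P : Finset (Fin (d + 3))}
    {x : Fin (d + 3) → EuclideanSpace ℝ (Fin (d + 1))} :
    OrthogonalSimplices d P x ↔ Pool.Agent.RieszSmall.OrthSimplices P x := by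
  unfold OrthogonalSimplices Pool.Agent.RieszSmall.OrthSimplices
  simp only [card_compl_cast, Finset.mem_compl]

lemma blk_iff {n : ℕ} {x : Fin (n + 1 + 3) → EuclideanSpace ℝ (Fin (n + 1 + 1))} :
    IsSimplexPair (n + 1) 2 x ↔ Pool.Agent.RieszWin.Blk2 x := by
  unfold IsSimplexPair Pool.Agent.RieszWin.Blk2
  simp only [orth_iff]

lemma shape_iff {n : ℕ} {α γ : ℝ} {x : Fin (n + 1 + 3) → EuclideanSpace ℝ (Fin (n + 1 + 1))} :
    HasShape (n + 1) α γ x ↔ Pool.Agent.RieszWin.Sym α γ x := by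
  constructor
  · rintro ⟨e, h1, h2, h3, h4⟩
    exact ⟨e, sym_of_shape h1 h2 h3 h4⟩
  · rintro ⟨e, he⟩
    exact shape_of_sym he

lemma energy_En {n : ℕ} {s : ℝ} {x : Fin (n + 1 + 3) → EuclideanSpace ℝ (Fin (n + 1 + 1))}
    (hx : IsConfig (n + 1) x) :
    rieszEnergy s x = 2 ^ (-(s / 2)) * Pool.Agent.RieszSmall.En (s / 2) x := by
  rw [energy_eq hx, Pool.Agent.RieszWin.En_eq_dsum (cfg_iff.1 hx)]

/-- Minimizers are the configurations of energy `E`, if `E` is an attained lower bound. -/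
lemma minimizer_iff {n : ℕ} {s E : ℝ}
    (hlow : ∀ x : Fin (n + 1 + 3) → EuclideanSpace ℝ (Fin (n + 1 + 1)), IsConfig (n + 1) x →
      E ≤ Pool.Agent.RieszSmall.En (s / 2) x)
    (hatt : ∃ x : Fin (n + 1 + 3) → EuclideanSpace ℝ (Fin (n + 1 + 1)), IsConfig (n + 1) x ∧
      Pool.Agent.RieszSmall.En (s / 2) x = E)
    (x : Fin (n + 1 + 3) → EuclideanSpace ℝ (Fin (n + 1 + 1))) :
    IsMinimizer (n + 1) s x ↔ IsConfig (n + 1) x ∧ Pool.Agent.RieszSmall.En (s / 2) x = E := by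
  have h2pos : (0 : ℝ) < 2 ^ (-(s / 2)) := Real.rpow_pos_of_pos (by norm_num) _
  constructor
  · rintro ⟨hx, hmin⟩
    refine ⟨hx, le_antisymm ?_ (hlow x hx)⟩
    obtain ⟨z, hz, hzE⟩ := hatt
    have h1 := hmin z hz
    rw [energy_En hx, energy_En hz] at h1
    have h2 := le_of_mul_le_mul_left h1 h2pos
    rwa [hzE] at h2
  · rintro ⟨hx, hE⟩
    refine ⟨hx, fun z hz => ?_⟩
    rw [energy_En hx, energy_En hz, hE]
    exact mul_le_mul_of_nonneg_left (hlow z hz) h2pos.le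

lemma optimal_iff {n : ℕ} {s α γ : ℝ} (hn : 2 ≤ n) (hs : 0 < s) (hd : InDom n α γ)
    (hmin : ∀ a g, InDom n a g → Pool.Agent.Riesz.Phi n (s / 2) α γ
      ≤ Pool.Agent.Riesz.Phi n (s / 2) a g)
    {x : Fin (n + 1 + 3) → EuclideanSpace ℝ (Fin (n + 1 + 1))} :
    IsOptimalLiftedSquare (n + 1) s x ↔ Pool.Agent.RieszWin.Sym α γ x := by
  have h2pos : (0 : ℝ) < 2 ^ (-(s / 2)) := Real.rpow_pos_of_pos (by norm_num) _
  have hn1 : (1 : ℝ) ≤ n := by exact_mod_cast (by omega : 1 ≤ n)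
  have hpar : ∀ p ∈ Params (n + 1),
      (∀ q ∈ Params (n + 1), redEnergy (n + 1) s p.1 p.2 ≤ redEnergy (n + 1) s q.1 q.2) ↔
      (∀ a g, InDom n a g → Pool.Agent.Riesz.Phi n (s / 2) p.1 p.2
        ≤ Pool.Agent.Riesz.Phi n (s / 2) a g) := by
    intro p hp
    have hp' : InDom n p.1 p.2 := (mem_Params n p.1 p.2).1 hp
    constructor
    · intro h a g hag
      have h1 := h (a, g) ((mem_Params n a g).2 hag)
      rw [redEnergy_eq hp', redEnergy_eq hag] at h1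
      have h2 := le_of_mul_le_mul_left h1 h2pos
      linarith
    · intro h q hq
      have hq' : InDom n q.1 q.2 := (mem_Params n q.1 q.2).1 hq
      rw [redEnergy_eq hp', redEnergy_eq hq']
      apply mul_le_mul_of_nonneg_left _ h2pos.le
      linarith [h q.1 q.2 hq']
  constructor
  · rintro ⟨p, hp, hpm, hS⟩
    have hp' : InDom n p.1 p.2 := (mem_Params n p.1 p.2).1 hp
    have hpm' := (hpar p hp).1 hpm
    obtain ⟨e1, e2⟩ := Pool.Agent.Riesz.Phi_unique hn1 (by linarith : 0 < s / 2) hd hp' hmin hpm'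
    have e3 : γ = p.2 := by
      rcases e2 with h | h
      · exfalso
        have : (2 : ℝ) ≤ n := by exact_mod_cast hn
        linarith
      · exact h
    rw [e1, e3]
    exact shape_iff.1 hS
  · intro h
    exact ⟨(α, γ), (mem_Params n α γ).2 hd,
      (hpar (α, γ) ((mem_Params n α γ).2 hd)).2 hmin, shape_iff.2 h⟩

lemma sym_congr {n : ℕ} {α γ : ℝ}
    {x x' : Fin (n + 1 + 3) → EuclideanSpace ℝ (Fin (n + 1 + 1))}
    (hx : IsConfig (n + 1) x) (hx' : IsConfig (n + 1) x')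
    (h : Pool.Agent.RieszWin.Sym α γ x) (h' : Pool.Agent.RieszWin.Sym α γ x') :
    Congruent (n + 1) x x' := by
  obtain ⟨e, he⟩ := h
  obtain ⟨e', he'⟩ := h'
  obtain ⟨A, hA⟩ := exists_isometry (f := fun p => x (e p)) (g := fun p => x' (e' p))
    (gram_eq (u := fun p => x (e p)) (w := fun p => x' (e' p)) (fun p => hx.2 _)
      (fun p => hx'.2 _) he he')
  refine ⟨A, e.symm.trans e', fun i => ?_⟩
  have := hA (e.symm i)
  simp only [Equiv.apply_symm_apply] at this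
  rw [this]
  rfl

/-- Two orthogonal simplices exist. -/
lemma exists_config {d m : ℕ} (h2 : 2 ≤ m) (hm : m ≤ d + 1) :
    ∃ (x : Fin (d + 3) → EuclideanSpace ℝ (Fin (d + 1))) (P : Finset (Fin (d + 3))),
      IsConfig d x ∧ P.card = m ∧ OrthogonalSimplices d P x := by
  obtain ⟨a, rfl⟩ : ∃ a, m = a + 1 := ⟨m - 1, by omega⟩
  obtain ⟨b, hb⟩ : ∃ b, d + 1 = a + b := ⟨d + 1 - a, by omega⟩
  have key : ∀ n, n = a + b → ∃ (x : Fin (d + 3) → EuclideanSpace ℝ (Fin n))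
      (P : Finset (Fin (d + 3))), (∀ i, ‖x i‖ = 1) ∧ P.card = a + 1 ∧
        Pool.Agent.RieszSmall.OrthSimplices P x := by
    rintro n rfl
    exact Pool.Agent.RieszSmall.exists_orth (by omega) (by omega) (by omega)
  obtain ⟨x, P, hx, hP, hO⟩ := key (d + 1) hb
  refine ⟨x, P, ⟨?_, hx⟩, hP, orth_iff.2 hO⟩
  intro i j hij
  by_contra hne
  have h1 : (inner ℝ (x i) (x j) : ℝ) = 1 := by
    rw [hij, real_inner_self_eq_norm_sq, hx]; norm_num
  have hPc : Pᶜ.card = b + 1 := by rw [Finset.card_compl, hP, Fintype.card_fin]; omega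
  have hneg : ∀ k : ℕ, 1 ≤ k → -1 / (((k + 1 : ℕ) : ℝ) - 1) ≤ 0 := by
    intro k hk
    apply div_nonpos_of_nonpos_of_nonneg (by norm_num)
    push_cast
    have : (0 : ℝ) ≤ k := Nat.cast_nonneg k
    linarith
  by_cases hi : i ∈ P <;> by_cases hj : j ∈ P
  · have h3 := hO.1 i hi j hj hne
    rw [hP] at h3
    have := hneg a (by omega)
    linarith
  · have h3 := hO.2.2 i hi j (Finset.mem_compl.2 hj)
    linarith
  · have h3 := hO.2.2 j hj i (Finset.mem_compl.2 hi)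
    rw [real_inner_comm] at h3
    linarith
  · have h3 := hO.2.1 i (Finset.mem_compl.2 hi) j (Finset.mem_compl.2 hj) hne
    rw [hPc] at h3
    have := hneg b (by omega)
    linarith


/-- **The phase diagram in large dimension.** There is `d₀` such that for every `d ≥ d₀` there is
`s₀` with `2 d (log d - log log d - 1/5) ≤ s₀ ≤ 2 d (log d - log log d)` such that the Riesz
`s`-energy minimizing `(d+3)`-point configurations on `S^d` are:
* for `0 < s < 2` the pairs of orthogonal regular simplices with `⌊(d+3)/2⌋` and `⌈(d+3)/2⌉`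
  vertices; for `s = 2` all pairs with `k` and `d + 3 - k` vertices, `2 ≤ k ≤ d + 1`;
* for `2 < s < s₀` the pairs of orthogonal regular simplices with `2` and `d + 1` vertices;
* for `s > s₀` the optimal lifted squares; for `s = s₀` both kinds.
All these configurations exist and are unique up to orthogonal transformations and relabelling (for
given `k`, respectively given `s`). -/
theorem result : ∃ d₀ : ℕ, ∀ d : ℕ, d₀ ≤ d → ∃ s₀ : ℝ,
    2 * d * (Real.log d - Real.log (Real.log d) - 1 / 5) ≤ s₀ ∧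
    s₀ ≤ 2 * d * (Real.log d - Real.log (Real.log d)) ∧
    (∀ s : ℝ, 0 < s → s < 2 → ∀ x : Fin (d + 3) → EuclideanSpace ℝ (Fin (d + 1)),
      IsMinimizer d s x ↔ IsConfig d x ∧ IsSimplexPair d ((d + 3) / 2) x) ∧
    (∀ x : Fin (d + 3) → EuclideanSpace ℝ (Fin (d + 1)),
      IsMinimizer d 2 x ↔ IsConfig d x ∧ ∃ k : ℕ, 2 ≤ k ∧ k ≤ d + 1 ∧ IsSimplexPair d k x) ∧
    (∀ s : ℝ, 2 < s → s < s₀ → ∀ x : Fin (d + 3) → EuclideanSpace ℝ (Fin (d + 1)),
      IsMinimizer d s x ↔ IsConfig d x ∧ IsSimplexPair d 2 x) ∧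
    (∀ x : Fin (d + 3) → EuclideanSpace ℝ (Fin (d + 1)),
      IsMinimizer d s₀ x ↔ IsConfig d x ∧
        (IsSimplexPair d 2 x ∨ IsOptimalLiftedSquare d s₀ x)) ∧
    (∀ s : ℝ, s₀ < s → ∀ x : Fin (d + 3) → EuclideanSpace ℝ (Fin (d + 1)),
      IsMinimizer d s x ↔ IsConfig d x ∧ IsOptimalLiftedSquare d s x) ∧
    (∀ k : ℕ, 2 ≤ k → k ≤ d + 1 →
      (∃ x : Fin (d + 3) → EuclideanSpace ℝ (Fin (d + 1)), IsConfig d x ∧ IsSimplexPair d k x) ∧
      (∀ x x' : Fin (d + 3) → EuclideanSpace ℝ (Fin (d + 1)), IsConfig d x → IsConfig d x' →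
        IsSimplexPair d k x → IsSimplexPair d k x' → Congruent d x x')) ∧
    (∀ s : ℝ, s₀ ≤ s →
      (∃ x : Fin (d + 3) → EuclideanSpace ℝ (Fin (d + 1)),
        IsConfig d x ∧ IsOptimalLiftedSquare d s x) ∧
      (∀ x x' : Fin (d + 3) → EuclideanSpace ℝ (Fin (d + 1)), IsConfig d x → IsConfig d x' →
        IsOptimalLiftedSquare d s x → IsOptimalLiftedSquare d s x' → Congruent d x x')) := by
  obtain ⟨n0, hn0⟩ := Pool.Agent.RieszWin.window_main
  refine ⟨n0 + 3001, fun d hd => ?_⟩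
  obtain ⟨n, rfl⟩ : ∃ n, d = n + 1 := ⟨d - 1, by omega⟩
  obtain ⟨qs, hq1, hq2, hbelow, habove⟩ := hn0 n (by omega)
  have hn2 : 2 ≤ n := by omega
  have hn1 : 1 ≤ n := by omega
  have hcast : (((n + 1 : ℕ) : ℝ)) = (n : ℝ) + 1 := by push_cast; ring
  have h2pos : ∀ s : ℝ, (0 : ℝ) < 2 ^ (-(s / 2)) := fun s => Real.rpow_pos_of_pos (by norm_num) _
  have hn3 : (3000 : ℝ) ≤ n := by exact_mod_cast (by omega : 3000 ≤ n)
  have hn0' : (0 : ℝ) ≤ n := by linarith
  have hL1 : 1 ≤ Real.log ((n : ℝ) + 1) := by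
    rw [Real.le_log_iff_exp_le (by linarith)]
    have := Real.exp_one_lt_d9
    linarith
  -- `qs > 1`
  have hqs1 : 1 < qs := by
    have h1 : Real.log (Real.log ((n : ℝ) + 1)) ≤ Real.log ((n : ℝ) + 1) / 2 := by
      have hL : 0 < Real.log ((n : ℝ) + 1) := Real.log_pos (by linarith)
      have h2 : Real.log (Real.log ((n : ℝ) + 1) / 2) ≤ Real.log ((n : ℝ) + 1) / 2 - 1 :=
        Real.log_le_sub_one_of_pos (by positivity)
      rw [Real.log_div hL.ne' (by norm_num)] at h2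
      have h3 := Real.log_two_lt_d9
      linarith
    have h2 : 1 ≤ Real.log ((n : ℝ) + 1) / 2 := by
      have h3 : Real.exp 2 ≤ (n : ℝ) + 1 := by
        have := Real.exp_one_lt_d9
        have e : Real.exp 2 = Real.exp 1 * Real.exp 1 := by rw [← Real.exp_add]; norm_num
        rw [e]
        have h0 := Real.exp_pos 1
        have h9 : Real.exp 1 * Real.exp 1 ≤ 3 * 3 :=
          mul_le_mul (by linarith) (by linarith) h0.le (by norm_num)
        linarith
      have := (Real.le_log_iff_exp_le (by linarith : (0 : ℝ) < (n : ℝ) + 1)).2 h3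
      linarith
    have h8 : ((n : ℝ) + 1) * (4 / 5) ≤ ((n : ℝ) + 1) * (Real.log ((n : ℝ) + 1)
        - Real.log (Real.log ((n : ℝ) + 1)) - 1 / 5) :=
      mul_le_mul_of_nonneg_left (by linarith) (by linarith)
    linarith
  -- existence and uniqueness of the pairs of simplices
  have hpair : ∀ k : ℕ, 2 ≤ k → k ≤ n + 1 + 1 →
      (∃ x : Fin (n + 1 + 3) → EuclideanSpace ℝ (Fin (n + 1 + 1)),
        IsConfig (n + 1) x ∧ IsSimplexPair (n + 1) k x) ∧
      (∀ x x' : Fin (n + 1 + 3) → EuclideanSpace ℝ (Fin (n + 1 + 1)), IsConfig (n + 1) x →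
        IsConfig (n + 1) x' → IsSimplexPair (n + 1) k x → IsSimplexPair (n + 1) k x' →
        Congruent (n + 1) x x') := by
    intro k hk2 hk
    constructor
    · obtain ⟨x, P, hx, hP, hO⟩ := exists_config (d := n + 1) hk2 hk
      exact ⟨x, hx, P, hP, hO⟩
    · rintro x x' hx hx' ⟨P, hP, hO⟩ ⟨P', hP', hO'⟩
      exact Pool.Agent.RieszSmall.orth_unique hx.2 hx'.2 (hP.trans hP'.symm) (orth_iff.1 hO)
        (orth_iff.1 hO')
  have hTOP : ∀ s : ℝ, 2 * qs ≤ s → ∃ α γ : ℝ, InDom n α γ ∧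
        (∀ a g, InDom n a g → Pool.Agent.Riesz.Phi n (s / 2) α γ
          ≤ Pool.Agent.Riesz.Phi n (s / 2) a g) ∧
        (∀ x : Fin (n + 1 + 3) → EuclideanSpace ℝ (Fin (n + 1 + 1)), Pool.Agent.RieszWin.Cfg x →
          2 * Pool.Agent.Riesz.Phi n (s / 2) α γ ≤ Pool.Agent.RieszSmall.En (s / 2) x ∧
            (Pool.Agent.RieszSmall.En (s / 2) x = 2 * Pool.Agent.Riesz.Phi n (s / 2) α γ →
              Pool.Agent.RieszWin.Sym α γ x ∨ (s / 2 = qs ∧ Pool.Agent.RieszWin.Blk2 x))) ∧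
        (s / 2 = qs → 2 * Pool.Agent.Riesz.Phi n (s / 2) α γ
          = Pool.Agent.RieszLin.TT (s / 2) ((n : ℝ) + 2)) := by
    intro s hs1
    rcases le_total (s / 2) (((n : ℝ) + 2) * (Real.log ((n : ℝ) + 2) + 500)) with h | h
    · exact habove (s / 2) (by linarith) h
    · obtain ⟨α, γ, h1, h2, h3⟩ := Pool.Agent.RieszWin.top_main hn2 h
      refine ⟨α, γ, h1, h2, fun x hx => ⟨(h3 x hx).1, fun he => Or.inl ((h3 x hx).2 he)⟩,
        fun he => ?_⟩
      exfalso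
      have hL : 0 ≤ Real.log ((n : ℝ) + 2) := Real.log_nonneg (by linarith [hn0'])
      have h4 : Real.log ((n : ℝ) + 1) ≤ Real.log ((n : ℝ) + 2) :=
        Real.log_le_log (by linarith [hn0']) (by linarith)
      have h5 : 0 ≤ Real.log (Real.log ((n : ℝ) + 1)) := Real.log_nonneg hL1
      have h6 : ((n : ℝ) + 1) * (Real.log ((n : ℝ) + 1) - Real.log (Real.log ((n : ℝ) + 1)))
          ≤ ((n : ℝ) + 1) * Real.log ((n : ℝ) + 2) :=
        mul_le_mul_of_nonneg_left (by linarith) (by linarith [hn0'])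
      rw [he] at h
      linarith
  refine ⟨2 * qs, ?_, ?_, ?_, ?_, ?_, ?_, ?_, hpair, ?_⟩
  · rw [hcast]; linarith
  · rw [hcast]; linarith
  · intro s h0 h2 x
    obtain ⟨E, h3, h4⟩ := Pool.Agent.RieszWin.low1 n (q := s / 2) (by linarith) (by linarith)
    obtain ⟨⟨z, hz, P, hP, hO⟩, -⟩ := hpair ((n + 1 + 3) / 2) (by omega) (by omega)
    rw [minimizer_iff (E := E) (fun y hy => (h3 y hy).1) ⟨z, hz, h4 z P hP (orth_iff.1 hO)⟩ x]
    constructor
    · rintro ⟨hx, hE⟩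
      obtain ⟨P, hP, hO⟩ := (h3 x hx).2 hE
      exact ⟨hx, P, hP, orth_iff.2 hO⟩
    · rintro ⟨hx, P, hP, hO⟩
      exact ⟨hx, h4 x P hP (orth_iff.1 hO)⟩
  · intro x
    obtain ⟨E, h3, h4⟩ := Pool.Agent.RieszWin.low2 n
    have e1 : (2 : ℝ) / 2 = 1 := by norm_num
    obtain ⟨⟨z, hz, P, hP, hO⟩, -⟩ := hpair 2 (by omega) (by omega)
    rw [minimizer_iff (E := E) (fun y hy => by rw [e1]; exact (h3 y hy).1)
      ⟨z, hz, by rw [e1]; exact h4 z P (by omega) (by omega) (orth_iff.1 hO)⟩ x]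
    rw [e1]
    constructor
    · rintro ⟨hx, hE⟩
      obtain ⟨P, hP1, hP2, hO⟩ := (h3 x hx).2 hE
      exact ⟨hx, P.card, hP1, hP2, P, rfl, orth_iff.2 hO⟩
    · rintro ⟨hx, k, hk1, hk2, P, hP, hO⟩
      exact ⟨hx, h4 x P (by omega) (by omega) (orth_iff.1 hO)⟩
  · intro s h2 hs x
    have hmain : ∀ y : Fin (n + 1 + 3) → EuclideanSpace ℝ (Fin (n + 1 + 1)),
        IsConfig (n + 1) y → Pool.Agent.RieszLin.TT (s / 2) ((n : ℝ) + 2)
            ≤ Pool.Agent.RieszSmall.En (s / 2) y ∧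
          (Pool.Agent.RieszSmall.En (s / 2) y = Pool.Agent.RieszLin.TT (s / 2) ((n : ℝ) + 2) →
            Pool.Agent.RieszWin.Blk2 y) := by
      intro y hy
      rcases le_total (s / 2) (((n : ℝ) + 1) * (Real.log ((n : ℝ) + 1)
          - Real.log (Real.log ((n : ℝ) + 1)) - 240)) with h | h
      · exact Pool.Agent.RieszWin.low3 (by omega) (by linarith) h y hy
      · exact hbelow (s / 2) h (by linarith) y hy
    obtain ⟨z, hz, hzb⟩ := Pool.Agent.RieszWin.exists_blk n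
    rw [minimizer_iff (fun y hy => (hmain y hy).1) ⟨z, hz, Pool.Agent.RieszWin.En_blk hzb⟩ x]
    constructor
    · rintro ⟨hx, hE⟩
      exact ⟨hx, blk_iff.2 ((hmain x hx).2 hE)⟩
    · rintro ⟨hx, hb⟩
      exact ⟨hx, Pool.Agent.RieszWin.En_blk (blk_iff.1 hb)⟩
  · intro x
    obtain ⟨α, γ, hd', hmin, hall, htie⟩ := hTOP (2 * qs) le_rfl
    have e1 : 2 * qs / 2 = qs := by ring
    have htie' := htie e1
    obtain ⟨z, hz, hzs⟩ := Pool.Agent.RieszWin.exists_sym_cfg hn1 hd'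
    rw [minimizer_iff (fun y hy => (hall y hy).1) ⟨z, hz, Pool.Agent.RieszWin.En_sym hz hzs⟩ x,
      optimal_iff hn2 (by linarith) hd' hmin]
    constructor
    · rintro ⟨hx, hE⟩
      rcases (hall x hx).2 hE with h | h
      · exact ⟨hx, Or.inr h⟩
      · exact ⟨hx, Or.inl (blk_iff.2 h.2)⟩
    · rintro ⟨hx, h | h⟩
      · exact ⟨hx, by rw [Pool.Agent.RieszWin.En_blk (blk_iff.1 h)]; exact htie'.symm⟩
      · exact ⟨hx, Pool.Agent.RieszWin.En_sym hx h⟩
  · intro s hs x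
    obtain ⟨α, γ, hd', hmin, hall, -⟩ := hTOP s hs.le
    obtain ⟨z, hz, hzs⟩ := Pool.Agent.RieszWin.exists_sym_cfg hn1 hd'
    rw [minimizer_iff (fun y hy => (hall y hy).1) ⟨z, hz, Pool.Agent.RieszWin.En_sym hz hzs⟩ x,
      optimal_iff hn2 (by linarith) hd' hmin]
    constructor
    · rintro ⟨hx, hE⟩
      rcases (hall x hx).2 hE with h | h
      · exact ⟨hx, h⟩
      · exfalso
        linarith [h.1]
    · rintro ⟨hx, h⟩
      exact ⟨hx, Pool.Agent.RieszWin.En_sym hx h⟩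
  · intro s hs
    obtain ⟨α, γ, hd', hmin, -, -⟩ := hTOP s hs
    have hiff : ∀ {x : Fin (n + 1 + 3) → EuclideanSpace ℝ (Fin (n + 1 + 1))},
        IsOptimalLiftedSquare (n + 1) s x ↔ Pool.Agent.RieszWin.Sym α γ x :=
      optimal_iff hn2 (by linarith) hd' hmin
    constructor
    · obtain ⟨z, hz, hzs⟩ := Pool.Agent.RieszWin.exists_sym_cfg hn1 hd'
      exact ⟨z, hz, hiff.2 hzs⟩
    · intro x x' hx hx' h h'
      exact sym_congr hx hx' (hiff.1 h) (hiff.1 h')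

end Pool.Agent.Results.MP_743703_an.PhaseDiagram
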