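import Mathlib
import Pool.Agent.RieszSmall.Exist

set_option autoImplicit false

open Real Finset

namespace Pool.Agent.Results.MP_743703_an.SmallExponent

/-- The Riesz `s`-energy of a finite family of points: the sum of `‖x i - x j‖ ^ (-s)` over all
ordered pairs of different indices. -/
noncomputable def rieszEnergy {n : ℕ} {V : Type} [NormedAddCommGroup V] (s : ℝ) (x : Fin n → V) :
    ℝ :=
  ∑ i, ∑ j, if i = j then 0 else ‖x i - x j‖ ^ (-s)

/-- `x` lists `d + 3` distinct points of the unit sphere `S^d` of `ℝ^(d+1)`. -/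
def IsConfig (d : ℕ) (x : Fin (d + 3) → EuclideanSpace ℝ (Fin (d + 1))) : Prop :=
  Function.Injective x ∧ ∀ i, ‖x i‖ = 1

/-- `x` minimizes the Riesz `s`-energy among all `(d+3)`-point configurations on `S^d`. -/
def IsMinimizer (d : ℕ) (s : ℝ) (x : Fin (d + 3) → EuclideanSpace ℝ (Fin (d + 1))) : Prop :=
  IsConfig d x ∧ ∀ x', IsConfig d x' → rieszEnergy s x ≤ rieszEnergy s x'

/-- The points of `x` with index in `P` and the points with index outside `P` are the vertex sets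
of two regular simplices in orthogonal subspaces: two different points of the first group have
inner product `-1 / (|P| - 1)`, two different points of the second group have inner product
`-1 / ((d + 3 - |P|) - 1)`, and points of different groups are orthogonal. -/
def OrthogonalSimplices (d : ℕ) (P : Finset (Fin (d + 3)))
    (x : Fin (d + 3) → EuclideanSpace ℝ (Fin (d + 1))) : Prop :=
  (∀ i ∈ P, ∀ j ∈ P, i ≠ j → inner ℝ (x i) (x j) = -1 / ((P.card : ℝ) - 1)) ∧
  (∀ i, i ∉ P → ∀ j, j ∉ P → i ≠ j →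
    inner ℝ (x i) (x j) = -1 / (((d : ℝ) + 3 - P.card) - 1)) ∧
  (∀ i ∈ P, ∀ j, j ∉ P → inner ℝ (x i) (x j) = (0 : ℝ))

open Pool.Agent.RieszSmall

lemma card_compl_cast {d : ℕ} (P : Finset (Fin (d + 3))) :
    ((Pᶜ.card : ℕ) : ℝ) = (d : ℝ) + 3 - P.card := by
  rw [Finset.card_compl, Fintype.card_fin, Nat.cast_sub]
  · push_cast; ring
  · simpa using Finset.card_le_univ P

lemma orth_iff {d : ℕ} {P : Finset (Fin (d + 3))}
    {x : Fin (d + 3) → EuclideanSpace ℝ (Fin (d + 1))} :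
    OrthogonalSimplices d P x ↔ OrthSimplices P x := by
  unfold OrthogonalSimplices OrthSimplices
  simp only [card_compl_cast, Finset.mem_compl]

lemma norm_rpow {n : ℕ} {u v : EuclideanSpace ℝ (Fin n)} {s : ℝ} (hu : ‖u‖ = 1) (hv : ‖v‖ = 1)
    (hne : u ≠ v) : (inner ℝ u v : ℝ) < 1 ∧
      ‖u - v‖ ^ (-s) = 2 ^ (-(s / 2)) * (1 - inner ℝ u v) ^ (-(s / 2)) := by
  have h1 : ‖u - v‖ ^ 2 = 2 * (1 - inner ℝ u v) := by
    rw [norm_sub_sq_real, hu, hv]; ring
  have h2 : 0 < ‖u - v‖ := norm_pos_iff.2 (sub_ne_zero.2 hne)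
  have h3 : (inner ℝ u v : ℝ) < 1 := by
    have : 0 < ‖u - v‖ ^ 2 := by positivity
    linarith
  refine ⟨h3, ?_⟩
  rw [← Real.mul_rpow (by norm_num) (by linarith), ← h1, ← Real.rpow_natCast ‖u - v‖ 2,
    ← Real.rpow_mul h2.le]
  congr 1
  push_cast
  ring

lemma inner_lt {d : ℕ} {x : Fin (d + 3) → EuclideanSpace ℝ (Fin (d + 1))} (hx : IsConfig d x)
    (i j : Fin (d + 3)) (hij : i ≠ j) : (inner ℝ (x i) (x j) : ℝ) < 1 :=
  (norm_rpow (s := 1) (hx.2 i) (hx.2 j) (fun h => hij (hx.1 h))).1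

lemma energy_eq {d : ℕ} {s : ℝ} {x : Fin (d + 3) → EuclideanSpace ℝ (Fin (d + 1))}
    (hx : IsConfig d x) : rieszEnergy s x = 2 ^ (-(s / 2)) * En (s / 2) x := by
  unfold rieszEnergy En
  rw [Finset.mul_sum]
  refine Finset.sum_congr rfl (fun i _ => ?_)
  rw [Finset.mul_sum]
  refine Finset.sum_congr rfl (fun j _ => ?_)
  split_ifs with hij
  · simp
  · exact (norm_rpow (hx.2 i) (hx.2 j) (fun h => hij (hx.1 h))).2

/-- Minimizers are the configurations of energy `E`, if `E` is an attained lower bound. -/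
lemma minimizer_iff {d : ℕ} {s E : ℝ}
    (hlow : ∀ x : Fin (d + 3) → EuclideanSpace ℝ (Fin (d + 1)), IsConfig d x → E ≤ En (s / 2) x)
    (hatt : ∃ x : Fin (d + 3) → EuclideanSpace ℝ (Fin (d + 1)), IsConfig d x ∧ En (s / 2) x = E)
    (x : Fin (d + 3) → EuclideanSpace ℝ (Fin (d + 1))) :
    IsMinimizer d s x ↔ IsConfig d x ∧ En (s / 2) x = E := by
  have h2pos : (0 : ℝ) < 2 ^ (-(s / 2)) := Real.rpow_pos_of_pos (by norm_num) _
  constructor
  · rintro ⟨hx, hmin⟩
    refine ⟨hx, le_antisymm ?_ (hlow x hx)⟩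
    obtain ⟨z, hz, hzE⟩ := hatt
    have h1 := hmin z hz
    rw [energy_eq hx, energy_eq hz] at h1
    have h2 := le_of_mul_le_mul_left h1 h2pos
    rwa [hzE] at h2
  · rintro ⟨hx, hE⟩
    refine ⟨hx, fun z hz => ?_⟩
    rw [energy_eq hx, energy_eq hz, hE]
    exact mul_le_mul_of_nonneg_left (hlow z hz) h2pos.le

/-- Two orthogonal simplices exist. -/
lemma exists_config {d m : ℕ} (h2 : 2 ≤ m) (hm : m ≤ d + 1) :
    ∃ (x : Fin (d + 3) → EuclideanSpace ℝ (Fin (d + 1))) (P : Finset (Fin (d + 3))),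
      IsConfig d x ∧ P.card = m ∧ OrthogonalSimplices d P x := by
  obtain ⟨a, rfl⟩ : ∃ a, m = a + 1 := ⟨m - 1, by omega⟩
  obtain ⟨b, hb⟩ : ∃ b, d + 1 = a + b := ⟨d + 1 - a, by omega⟩
  have key : ∀ n, n = a + b → ∃ (x : Fin (d + 3) → EuclideanSpace ℝ (Fin n))
      (P : Finset (Fin (d + 3))), (∀ i, ‖x i‖ = 1) ∧ P.card = a + 1 ∧ OrthSimplices P x := by
    rintro n rfl
    exact exists_orth (by omega) (by omega) (by omega)
  obtain ⟨x, P, hx, hP, hO⟩ := key (d + 1) hb
  refine ⟨x, P, ⟨?_, hx⟩, hP, orth_iff.2 hO⟩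
  intro i j hij
  by_contra hne
  have h1 : (inner ℝ (x i) (x j) : ℝ) = 1 := by
    rw [hij, real_inner_self_eq_norm_sq, hx]; norm_num
  have hPc : Pᶜ.card = b + 1 := by rw [Finset.card_compl, hP, Fintype.card_fin]; omega
  have hneg : ∀ k : ℕ, 1 ≤ k → -1 / (((k + 1 : ℕ) : ℝ) - 1) ≤ 0 := by
    intro k hk
    apply div_nonpos_of_nonpos_of_nonneg (by norm_num)
    push_cast
    have : (0 : ℝ) ≤ k := Nat.cast_nonneg k
    linarith
  by_cases hi : i ∈ P <;> by_cases hj : j ∈ P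
  · have h3 := hO.1 i hi j hj hne
    rw [hP] at h3
    have := hneg a (by omega)
    linarith
  · have h3 := hO.2.2 i hi j (Finset.mem_compl.2 hj)
    linarith
  · have h3 := hO.2.2 j hj i (Finset.mem_compl.2 hi)
    rw [real_inner_comm] at h3
    linarith
  · have h3 := hO.2.1 i (Finset.mem_compl.2 hi) j (Finset.mem_compl.2 hj) hne
    rw [hPc] at h3
    have := hneg b (by omega)
    linarith

/-- **Minimizers for `0 < s ≤ 2`.** For every `d ≥ 1`:
* for `0 < s < 2` the Riesz `s`-energy minimizing `(d+3)`-point configurations on `S^d` are exactly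
  the pairs of orthogonal regular simplices with `⌊(d+3)/2⌋` and `⌈(d+3)/2⌉` vertices;
* for `s = 2` the minimizers are exactly the pairs of orthogonal regular simplices with `m` and
  `d + 3 - m` vertices, where `2 ≤ m ≤ d + 1`;
* for every such `m` such a configuration exists, and it is unique up to orthogonal
  transformations and relabelling. -/
theorem result (d : ℕ) (hd : 1 ≤ d) :
    (∀ s : ℝ, 0 < s → s < 2 → ∀ x : Fin (d + 3) → EuclideanSpace ℝ (Fin (d + 1)),
      IsMinimizer d s x ↔ IsConfig d x ∧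
        ∃ P : Finset (Fin (d + 3)), P.card = (d + 3) / 2 ∧ OrthogonalSimplices d P x) ∧
    (∀ x : Fin (d + 3) → EuclideanSpace ℝ (Fin (d + 1)),
      IsMinimizer d 2 x ↔ IsConfig d x ∧
        ∃ P : Finset (Fin (d + 3)), 2 ≤ P.card ∧ P.card ≤ d + 1 ∧ OrthogonalSimplices d P x) ∧
    (∀ m : ℕ, 2 ≤ m → m ≤ d + 1 →
      (∃ (x : Fin (d + 3) → EuclideanSpace ℝ (Fin (d + 1))) (P : Finset (Fin (d + 3))),
        IsConfig d x ∧ P.card = m ∧ OrthogonalSimplices d P x) ∧
      (∀ (x x' : Fin (d + 3) → EuclideanSpace ℝ (Fin (d + 1))) (P P' : Finset (Fin (d + 3))),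
        IsConfig d x → IsConfig d x' → P.card = m → P'.card = m → OrthogonalSimplices d P x →
        OrthogonalSimplices d P' x' →
        ∃ (A : EuclideanSpace ℝ (Fin (d + 1)) ≃ₗᵢ[ℝ] EuclideanSpace ℝ (Fin (d + 1)))
          (σ : Equiv.Perm (Fin (d + 3))), ∀ i, x' (σ i) = A (x i))) := by
  have hcard : Fintype.card (Fin (d + 3)) = d + 3 := Fintype.card_fin _
  have hfr : Module.finrank ℝ (EuclideanSpace ℝ (Fin (d + 1))) + 2 ≤ Fintype.card (Fin (d + 3)) := by
    rw [finrank_euclideanSpace_fin, hcard]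
  refine ⟨?_, ?_, ?_⟩
  · intro s h0 h2 x
    have hq0 : 0 < s / 2 := by linarith
    have hq1 : s / 2 < 1 := by linarith
    set E : ℝ := Est (s / 2) (((d + 3) / 2 : ℕ) : ℝ) ((d + 3 - (d + 3) / 2 : ℕ) : ℝ) with hEdef
    -- energy of the expected minimizers
    have hval : ∀ (y : Fin (d + 3) → EuclideanSpace ℝ (Fin (d + 1))) (P : Finset (Fin (d + 3))),
        P.card = (d + 3) / 2 → OrthogonalSimplices d P y → En (s / 2) y = E := by
      intro y P hP hO
      have hPc : Pᶜ.card = d + 3 - (d + 3) / 2 := by rw [Finset.card_compl, hP, hcard]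
      rw [En_orth (orth_iff.1 hO) (by omega) (by omega), hP, hPc]
    have hmain : ∀ y : Fin (d + 3) → EuclideanSpace ℝ (Fin (d + 1)), IsConfig d y →
        E ≤ En (s / 2) y ∧ (En (s / 2) y = E → ∃ P : Finset (Fin (d + 3)),
          P.card = (d + 3) / 2 ∧ OrthogonalSimplices d P y) := by
      intro y hy
      obtain ⟨c, w, hdep⟩ := exists_dep y hfr
      have hf := hdep.frame hy.2
      obtain ⟨b1, b2⟩ := hf.bound (by rw [hcard]; omega) hq0 hq1
      obtain ⟨e1, e2⟩ := hdep.En_ge hy.2 (inner_lt hy) hq0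
      have e3 := hdep.Yg_ge hy.2 hq0.le hq1.le
      have e4 : 0 ≤ ‖∑ i, y i‖ ^ 2 := sq_nonneg _
      have e5 : 0 ≤ s / 2 * Yg (s / 2) y c w := mul_nonneg hq0.le (e4.trans e3)
      rw [hcard, ← hEdef] at b1 b2
      refine ⟨by linarith, fun hE => ?_⟩
      obtain ⟨l1, l2⟩ := b2 (by linarith)
      obtain ⟨P, hP, hB⟩ := hf.blocks_of_eq (by rw [hcard]; omega) l1 (by rw [hcard]; exact l2)
      rw [hcard] at hP
      exact ⟨P, hP, orth_iff.2 (orth_of_blocks hB (e2 (by linarith)))⟩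
    obtain ⟨z, P, hz, hP, hO⟩ := exists_config (d := d) (m := (d + 3) / 2) (by omega) (by omega)
    rw [minimizer_iff (E := E) (fun y hy => (hmain y hy).1) ⟨z, hz, hval z P hP hO⟩ x]
    constructor
    · rintro ⟨hx, hE⟩
      exact ⟨hx, (hmain x hx).2 hE⟩
    · rintro ⟨hx, P, hP, hO⟩
      exact ⟨hx, hval x P hP hO⟩
  · intro x
    set E : ℝ := (Fintype.card (Fin (d + 3)) : ℝ) ^ 2 - 2 * Fintype.card (Fin (d + 3)) + 2 with hEdef
    have hval : ∀ (y : Fin (d + 3) → EuclideanSpace ℝ (Fin (d + 1))) (P : Finset (Fin (d + 3))),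
        2 ≤ P.card → P.card ≤ d + 1 → OrthogonalSimplices d P y → En (2 / 2) y = E := by
      intro y P hP1 hP2 hO
      have hPc : Pᶜ.card = d + 3 - P.card := by rw [Finset.card_compl, hcard]
      rw [En_orth (orth_iff.1 hO) (by omega) (by omega)]
      unfold Est
      have hsum : (P.card : ℝ) + (Pᶜ.card : ℝ) = Fintype.card (Fin (d + 3)) := by
        rw [← Nat.cast_add, Finset.card_add_card_compl]
      have e : (2 / 2 + 1 : ℝ) = ((2 : ℕ) : ℝ) := by norm_num
      have hp1 : (P.card : ℝ) ≠ 0 := by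
        have : 0 < P.card := by omega
        positivity
      have hp2 : (Pᶜ.card : ℝ) ≠ 0 := by
        have : 0 < Pᶜ.card := by omega
        positivity
      rw [e, Real.rpow_natCast, Real.rpow_natCast, hEdef, ← hsum]
      field_simp
      ring
    have hmain : ∀ y : Fin (d + 3) → EuclideanSpace ℝ (Fin (d + 1)), IsConfig d y →
        E ≤ En (2 / 2) y ∧ (En (2 / 2) y = E → ∃ P : Finset (Fin (d + 3)),
          2 ≤ P.card ∧ P.card ≤ d + 1 ∧ OrthogonalSimplices d P y) := by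
      intro y hy
      have e : (2 / 2 : ℝ) = 1 := by norm_num
      rw [e]
      obtain ⟨c, w, hdep⟩ := exists_dep y hfr
      refine ⟨(hdep.one_lower hy.2 (inner_lt hy)).1, fun hE => ?_⟩
      obtain ⟨P, hP1, hP2, hO⟩ := one_equality hfr hy.2 (inner_lt hy) hE
      refine ⟨P, hP1, ?_, orth_iff.2 hO⟩
      rw [Finset.card_compl, hcard] at hP2
      omega
    obtain ⟨z, P, hz, hP, hO⟩ := exists_config (d := d) (m := 2) (by omega) (by omega)
    rw [minimizer_iff (E := E) (fun y hy => (hmain y hy).1)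
      ⟨z, hz, hval z P (by omega) (by omega) hO⟩ x]
    constructor
    · rintro ⟨hx, hE⟩
      exact ⟨hx, (hmain x hx).2 hE⟩
    · rintro ⟨hx, P, hP1, hP2, hO⟩
      exact ⟨hx, hval x P hP1 hP2 hO⟩
  · intro m hm2 hm
    refine ⟨exists_config hm2 hm, ?_⟩
    intro x x' P P' hx hx' hP hP' hO hO'
    exact orth_unique hx.2 hx'.2 (hP.trans hP'.symm) (orth_iff.1 hO) (orth_iff.1 hO')

end Pool.Agent.Results.MP_743703_an.SmallExponent
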